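import Pool.Agent.Zk14.OW.Ori
import Pool.Agent.Zk14.OW.Dist

/-!
# Turán's construction has a one-way partition into two classes
-/

set_option autoImplicit false
open Finset
open scoped Classical

namespace Pool.Agent.Zk14.TP
open Pool.Agent.Zk14.OW Pool.Agent.Zk14.OneWay

/-- the three classes of Turán's construction with `3 s` vertices -/
def tc (s : ℕ) (x : Fin (3 * s)) : Fin 3 := ⟨x.val % 3, Nat.mod_lt _ (by norm_num)⟩

/-- the orientation of Turán's construction -/
def tR (s : ℕ) (x y : Fin (3 * s)) : Prop := tc s y = tc s x + 1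

/-- Turán's construction -/
noncomputable def turan (s : ℕ) : Finset (Finset (Fin (3 * s))) := triples (tc s) (tR s)

/-- the first class and the union of the two others -/
def t2 (s : ℕ) (x : Fin (3 * s)) : Fin 2 := if tc s x = 0 then 0 else 1

theorem fin3 : ∀ a b : Fin 3, (b = a + 1 → a ≠ b) ∧ (a ≠ b → (b = a + 1 ↔ ¬ a = b + 1)) := by
  decide

theorem tR_ori (s : ℕ) : IsOrientation (tc s) (tR s) := fun _ _ => fin3 _ _

theorem tR_four (s : ℕ) : NoFourCycle (tc s) (tR s) := by
  rintro a a' b b' h1 - ⟨h3, h4, -, -⟩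
  unfold tR at h3 h4
  rw [h3, ← h1] at h4
  revert h4
  generalize tc s a = u
  revert u
  decide

theorem turan_cov (s : ℕ) : Covering (turan s) := covering_triples (tR_ori s) (tR_four s)

/-- the types of the members -/
theorem turan_type {s : ℕ} {x y z : Fin (3 * s)} (hxy : x ≠ y) (hxz : x ≠ z) (hyz : y ≠ z)
    (h : ({x, y, z} : Finset (Fin (3 * s))) ∈ turan s) :
    (tc s x = tc s y ∧ tc s x = tc s z) ∨ (tc s y = tc s x + 1 ∧ tc s z = tc s x + 1) ∨
      (tc s x = tc s y + 1 ∧ tc s z = tc s y + 1) ∨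
      (tc s x = tc s z + 1 ∧ tc s y = tc s z + 1) := by
  unfold turan triples at h
  rw [mem_filter] at h
  obtain ⟨-, -, h⟩ := h
  rcases h with ⟨i, hi⟩ | ⟨w, hw, hwd⟩
  · left
    have hk : ∀ w ∈ ({x, y, z} : Finset (Fin (3 * s))), tc s w = i := by
      intro w hw
      have := hi hw
      unfold part at this
      rw [mem_filter] at this
      exact this.2
    rw [hk x (by simp), hk y (by simp), hk z (by simp)]
    exact ⟨rfl, rfl⟩
  · right
    rw [mem_insert, mem_insert, mem_singleton] at hw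
    rcases hw with rfl | rfl | rfl
    · exact Or.inl ⟨hwd y (by simp) (Ne.symm hxy), hwd z (by simp) (Ne.symm hxz)⟩
    · exact Or.inr (Or.inl ⟨hwd x (by simp) hxy, hwd z (by simp) (Ne.symm hyz)⟩)
    · exact Or.inr (Or.inr ⟨hwd x (by simp) hxz, hwd y (by simp) hyz⟩)

theorem fin3_att : ∀ a b z : Fin 3, (a = 0 ↔ z = 0) → ¬ (a = 0 ↔ b = 0) →
    ((a = z ∧ a = b) ∨ (z = a + 1 ∧ b = a + 1) ∨ (a = z + 1 ∧ b = z + 1) ∨
      (a = b + 1 ∧ z = b + 1)) → a = b + 1 := by decide

theorem fin3_no : ∀ a b : Fin 3, ¬ (a = b + 1 ∧ b = a + 1) := by decide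

theorem t2_eq {s : ℕ} {x y : Fin (3 * s)} : t2 s x = t2 s y ↔ (tc s x = 0 ↔ tc s y = 0) := by
  unfold t2
  split_ifs with h1 h2 h2
  · simp [h1, h2]
  · simp [h1, h2]
  · simp [h1, h2]
  · simp [h1, h2]

theorem turan_att {s : ℕ} {x y : Fin (3 * s)} (hxy : t2 s x ≠ t2 s y)
    (h : Attached (turan s) (t2 s) x y) : tc s x = tc s y + 1 := by
  obtain ⟨z, hzx, hz, hm⟩ := h
  have hne : x ≠ y := fun h => hxy (by rw [h])
  have hzy : z ≠ y := by
    rintro rfl
    exact hxy hz.symm
  have h1 := turan_type (Ne.symm hzx) hne hzy hm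
  rw [t2_eq] at hz
  rw [Ne, t2_eq] at hxy
  exact fin3_att (tc s x) (tc s y) (tc s z) hz.symm hxy h1

theorem turan_twoWay (s : ℕ) : twoWay (turan s) (t2 s) = ∅ := by
  apply eq_empty_of_forall_notMem
  rintro ⟨x, y⟩ hp
  unfold twoWay at hp
  rw [mem_filter] at hp
  obtain ⟨-, -, hc, h1, h2⟩ := hp
  exact fin3_no _ _ ⟨turan_att hc h1, turan_att (Ne.symm hc) h2⟩

theorem class_card (s : ℕ) (k : Fin 3) :
    (univ.filter fun x : Fin (3 * s) => tc s x = k).card = s := by
  have h1 : (univ.filter fun x : Fin (3 * s) => tc s x = k) =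
      univ.map ⟨fun i : Fin s => (⟨3 * i.val + k.val, by omega⟩ : Fin (3 * s)), by
        intro a b h
        simp only [Fin.mk.injEq] at h
        exact Fin.ext (by omega)⟩ := by
    ext x
    simp only [mem_filter, mem_univ, true_and, mem_map]
    unfold tc
    constructor
    · intro h
      have h2 : x.val % 3 = k.val := congrArg Fin.val h
      refine ⟨⟨x.val / 3, by omega⟩, Fin.ext ?_⟩
      show 3 * (x.val / 3) + k.val = x.val
      omega
    · rintro ⟨a, rfl⟩
      apply Fin.ext
      show (3 * a.val + k.val) % 3 = k.val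
      omega
  rw [h1, card_map, card_univ, Fintype.card_fin]

theorem turan_parts (s : ℕ) (i : Fin 2) : 3 * s ≤ 8 * (part (t2 s) i).card := by
  have h0 : (part (t2 s) 0).card = s := by
    have h : part (t2 s) 0 = univ.filter fun x : Fin (3 * s) => tc s x = 0 := by
      ext x
      unfold part t2
      simp only [mem_filter, mem_univ, true_and]
      split_ifs with h <;> simp [h]
    rw [h, class_card]
  have h1 : s ≤ (part (t2 s) 1).card := by
    calc s = (univ.filter fun x : Fin (3 * s) => tc s x = 1).card := (class_card s 1).symm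
      _ ≤ (part (t2 s) 1).card := by
        apply card_le_card
        intro x hx
        rw [mem_filter] at hx
        unfold part t2
        rw [mem_filter]
        refine ⟨mem_univ _, ?_⟩
        rw [if_neg]
        rw [hx.2]
        decide
  rcases Fin.exists_fin_two.1 ⟨i, rfl⟩ with h | h
  · rw [h, h0]; omega
  · rw [h]; omega

theorem turan_card (s : ℕ) : 27 * (turan s).card ≤ 2 * (3 * s) ^ 3 := by
  obtain ⟨f, hf⟩ : ∃ f : Fin 3 → Fin (3 * s) → ℝ, f = fun k x => ind (tc s x = k) := ⟨_, rfl⟩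
  have hs : ∀ k, ∑ x, f k x = s := by
    intro k
    rw [hf]
    show ∑ x, ind (tc s x = k) = (s : ℝ)
    rw [sum_ind, class_card]
  have hf0 : ∀ k x, 0 ≤ f k x := fun k x => by rw [hf]; exact ind_nonneg _
  have h1 : 6 * ((turan s).card : ℝ) ≤ ∑ x : Fin (3 * s), ∑ y : Fin (3 * s), ∑ z : Fin (3 * s),
      ∑ k : Fin 3, (f k x * f k y * f k z + f k x * f (k + 1) y * f (k + 1) z +
        f (k + 1) x * f k y * f (k + 1) z + f (k + 1) x * f (k + 1) y * f k z) := by
    refine six_card_le _ (fun e he => (turan_cov s).1 e he) _ (fun x y z => ?_) ?_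
    · apply sum_nonneg
      intro k _
      have := hf0
      have a1 := mul_nonneg (mul_nonneg (hf0 k x) (hf0 k y)) (hf0 k z)
      have a2 := mul_nonneg (mul_nonneg (hf0 k x) (hf0 (k + 1) y)) (hf0 (k + 1) z)
      have a3 := mul_nonneg (mul_nonneg (hf0 (k + 1) x) (hf0 k y)) (hf0 (k + 1) z)
      have a4 := mul_nonneg (mul_nonneg (hf0 (k + 1) x) (hf0 (k + 1) y)) (hf0 k z)
      linarith
    intro x y z hxy hxz hyz h
    have h2 := turan_type hxy hxz hyz h
    have hk : ∀ k : Fin 3, 0 ≤ f k x * f k y * f k z + f k x * f (k + 1) y * f (k + 1) z +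
        f (k + 1) x * f k y * f (k + 1) z + f (k + 1) x * f (k + 1) y * f k z := by
      intro k
      have a1 := mul_nonneg (mul_nonneg (hf0 k x) (hf0 k y)) (hf0 k z)
      have a2 := mul_nonneg (mul_nonneg (hf0 k x) (hf0 (k + 1) y)) (hf0 (k + 1) z)
      have a3 := mul_nonneg (mul_nonneg (hf0 (k + 1) x) (hf0 k y)) (hf0 (k + 1) z)
      have a4 := mul_nonneg (mul_nonneg (hf0 (k + 1) x) (hf0 (k + 1) y)) (hf0 k z)
      linarith
    have hone : ∀ k x, tc s x = k → f k x = 1 := by
      intro k x hx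
      rw [hf]
      exact ind_true hx
    have hle : ∀ k : Fin 3, 1 ≤ f k x * f k y * f k z + f k x * f (k + 1) y * f (k + 1) z +
        f (k + 1) x * f k y * f (k + 1) z + f (k + 1) x * f (k + 1) y * f k z →
        1 ≤ ∑ k : Fin 3, (f k x * f k y * f k z + f k x * f (k + 1) y * f (k + 1) z +
        f (k + 1) x * f k y * f (k + 1) z + f (k + 1) x * f (k + 1) y * f k z) :=
      fun k h => h.trans (single_le_sum (f := fun k : Fin 3 => f k x * f k y * f k z +
        f k x * f (k + 1) y * f (k + 1) z + f (k + 1) x * f k y * f (k + 1) z +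
        f (k + 1) x * f (k + 1) y * f k z) (fun k _ => hk k) (mem_univ k))
    rcases h2 with h2 | h2 | h2 | h2
    · apply hle (tc s x)
      have e1 := hone _ x rfl
      have e2 := hone (tc s x) y h2.1.symm
      have e3 := hone (tc s x) z h2.2.symm
      have a2 := mul_nonneg (mul_nonneg (hf0 (tc s x) x) (hf0 (tc s x + 1) y))
        (hf0 (tc s x + 1) z)
      have a3 := mul_nonneg (mul_nonneg (hf0 (tc s x + 1) x) (hf0 (tc s x) y))
        (hf0 (tc s x + 1) z)
      have a4 := mul_nonneg (mul_nonneg (hf0 (tc s x + 1) x) (hf0 (tc s x + 1) y))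
        (hf0 (tc s x) z)
      rw [e1, e2, e3] at *
      linarith
    · apply hle (tc s x)
      have e1 := hone _ x rfl
      have e2 := hone (tc s x + 1) y h2.1
      have e3 := hone (tc s x + 1) z h2.2
      have a1 := mul_nonneg (mul_nonneg (hf0 (tc s x) x) (hf0 (tc s x) y)) (hf0 (tc s x) z)
      have a3 := mul_nonneg (mul_nonneg (hf0 (tc s x + 1) x) (hf0 (tc s x) y))
        (hf0 (tc s x + 1) z)
      have a4 := mul_nonneg (mul_nonneg (hf0 (tc s x + 1) x) (hf0 (tc s x + 1) y))
        (hf0 (tc s x) z)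
      rw [e1, e2, e3] at *
      linarith
    · apply hle (tc s y)
      have e1 := hone _ y rfl
      have e2 := hone (tc s y + 1) x h2.1
      have e3 := hone (tc s y + 1) z h2.2
      have a1 := mul_nonneg (mul_nonneg (hf0 (tc s y) x) (hf0 (tc s y) y)) (hf0 (tc s y) z)
      have a2 := mul_nonneg (mul_nonneg (hf0 (tc s y) x) (hf0 (tc s y + 1) y))
        (hf0 (tc s y + 1) z)
      have a4 := mul_nonneg (mul_nonneg (hf0 (tc s y + 1) x) (hf0 (tc s y + 1) y))
        (hf0 (tc s y) z)
      rw [e1, e2, e3] at *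
      linarith
    · apply hle (tc s z)
      have e1 := hone _ z rfl
      have e2 := hone (tc s z + 1) x h2.1
      have e3 := hone (tc s z + 1) y h2.2
      have a1 := mul_nonneg (mul_nonneg (hf0 (tc s z) x) (hf0 (tc s z) y)) (hf0 (tc s z) z)
      have a2 := mul_nonneg (mul_nonneg (hf0 (tc s z) x) (hf0 (tc s z + 1) y))
        (hf0 (tc s z + 1) z)
      have a3 := mul_nonneg (mul_nonneg (hf0 (tc s z + 1) x) (hf0 (tc s z) y))
        (hf0 (tc s z + 1) z)
      rw [e1, e2, e3] at *
      linarith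
  have h2 : ∑ x : Fin (3 * s), ∑ y : Fin (3 * s), ∑ z : Fin (3 * s),
      ∑ k : Fin 3, (f k x * f k y * f k z + f k x * f (k + 1) y * f (k + 1) z +
        f (k + 1) x * f k y * f (k + 1) z + f (k + 1) x * f (k + 1) y * f k z) =
      12 * (s : ℝ) ^ 3 := by
    have hprod : ∀ a b d : Fin 3, ∑ x : Fin (3 * s), ∑ y : Fin (3 * s), ∑ z : Fin (3 * s),
        f a x * f b y * f d z = (s : ℝ) ^ 3 := by
      intro a b d
      simp only [← mul_sum, ← sum_mul, hs]
      ring
    have hcomm : ∑ x : Fin (3 * s), ∑ y : Fin (3 * s), ∑ z : Fin (3 * s),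
      ∑ k : Fin 3, (f k x * f k y * f k z + f k x * f (k + 1) y * f (k + 1) z +
        f (k + 1) x * f k y * f (k + 1) z + f (k + 1) x * f (k + 1) y * f k z) =
        ∑ k : Fin 3, ∑ x : Fin (3 * s), ∑ y : Fin (3 * s), ∑ z : Fin (3 * s),
        (f k x * f k y * f k z + f k x * f (k + 1) y * f (k + 1) z +
        f (k + 1) x * f k y * f (k + 1) z + f (k + 1) x * f (k + 1) y * f k z) := by
      calc _ = ∑ x : Fin (3 * s), ∑ y : Fin (3 * s), ∑ k : Fin 3, ∑ z : Fin (3 * s),
            (f k x * f k y * f k z + f k x * f (k + 1) y * f (k + 1) z +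
            f (k + 1) x * f k y * f (k + 1) z + f (k + 1) x * f (k + 1) y * f k z) :=
            sum_congr rfl fun x _ => sum_congr rfl fun y _ => sum_comm
        _ = ∑ x : Fin (3 * s), ∑ k : Fin 3, ∑ y : Fin (3 * s), ∑ z : Fin (3 * s),
            (f k x * f k y * f k z + f k x * f (k + 1) y * f (k + 1) z +
            f (k + 1) x * f k y * f (k + 1) z + f (k + 1) x * f (k + 1) y * f k z) :=
            sum_congr rfl fun x _ => sum_comm
        _ = _ := sum_comm
    rw [hcomm]
    have hk : ∀ k : Fin 3, ∑ x : Fin (3 * s), ∑ y : Fin (3 * s), ∑ z : Fin (3 * s),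
        (f k x * f k y * f k z + f k x * f (k + 1) y * f (k + 1) z +
        f (k + 1) x * f k y * f (k + 1) z + f (k + 1) x * f (k + 1) y * f k z) =
        4 * (s : ℝ) ^ 3 := by
      intro k
      simp only [sum_add_distrib]
      rw [hprod, hprod, hprod, hprod]
      ring
    rw [sum_congr rfl fun k _ => hk k, sum_const, card_univ, Fintype.card_fin, nsmul_eq_mul]
    push_cast
    ring
  rw [h2] at h1
  have h3 : (27 : ℝ) * ((turan s).card : ℝ) ≤ 2 * (3 * s) ^ 3 := by nlinarith
  exact_mod_cast h3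

end Pool.Agent.Zk14.TP
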