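import Pool.Agent.Zk14.TP.Count

/-!
# Coverings with a partition into two classes: the structure
-/

set_option autoImplicit false
open Finset
open scoped Classical

namespace Pool.Agent.Zk14.TP
open Pool.Agent.Zk14.OW

variable {n m : ℕ} {T : Finset (Finset (Fin n))} {c : Fin n → Fin 2} {i j : Fin 2}

/-- the vertices which form a two-way pair with `x` -/
noncomputable def tw (T : Finset (Finset (Fin n))) (c : Fin n → Fin 2) (x : Fin n) :
    Finset (Fin n) := univ.filter fun y => c x ≠ c y ∧ Mate T c x y ∧ Mate T c y x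

/-- the vertices of the class `i` with at least `m` outneighbours -/
noncomputable def De (T : Finset (Finset (Fin n))) (c : Fin n → Fin 2) (i : Fin 2) (m : ℕ) :
    Finset (Fin n) := univ.filter fun x => c x = i ∧ m ≤ (outN T c x).card

/-- the vertices of the class `i` with fewer than `m` outneighbours -/
noncomputable def Ee (T : Finset (Finset (Fin n))) (c : Fin n → Fin 2) (i : Fin 2) (m : ℕ) :
    Finset (Fin n) := univ.filter fun x => c x = i ∧ (outN T c x).card < m

theorem mem_De {x : Fin n} : x ∈ De T c i m ↔ c x = i ∧ m ≤ (outN T c x).card := by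
  unfold De
  simp

theorem mem_Ee {x : Fin n} : x ∈ Ee T c i m ↔ c x = i ∧ (outN T c x).card < m := by
  unfold Ee
  simp

theorem De_or_Ee {x : Fin n} (h : c x = i) : x ∈ De T c i m ∨ x ∈ Ee T c i m := by
  rw [mem_De, mem_Ee]
  rcases le_or_gt m (outN T c x).card with h1 | h1
  · exact Or.inl ⟨h, h1⟩
  · exact Or.inr ⟨h, h1⟩

theorem not_De_Ee {x : Fin n} (h : x ∈ De T c i m) : x ∉ Ee T c i m := by
  rw [mem_De] at h
  rw [mem_Ee]
  rintro ⟨-, h2⟩
  omega

theorem two_cl (hij : i ≠ j) {k : Fin 2} (h : k ≠ i) : k = j := by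
  rw [Ne, Fin.ext_iff] at hij h
  rw [Fin.ext_iff]
  omega

theorem exists_back (hm : ∀ x, (tw T c x).card < m) {x y : Fin n} (hxy : c x = c y)
    (hd : Disjoint (outN T c x) (outN T c y)) (hx : m ≤ (outN T c x).card) :
    ∃ w, arc T c x w ∧ arc T c w y := by
  obtain ⟨w, hw, hw'⟩ := exists_mem_notMem_of_card_lt_card (lt_of_lt_of_le (hm y) hx)
  have h1 := mem_outN.1 hw
  have hcw : c y ≠ c w := by rw [← hxy]; exact h1.1
  refine ⟨w, h1, ?_⟩
  have h2 : ¬ (Mate T c y w ∧ Mate T c w y) := by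
    intro h
    apply hw'
    unfold tw
    rw [mem_filter]
    exact ⟨mem_univ _, hcw, h⟩
  rcases arc_or hcw h2 with h | h
  · exact absurd (mem_outN.2 h) (disjoint_left.1 hd hw)
  · exact h

/-- a missing triple of a class has at most one vertex with many outneighbours -/
theorem one_De (hT : Cov T) (hm : ∀ x, (tw T c x).card < m) {x y z : Fin n} (hx : c x = i)
    (hy : c y = i) (hz : c z = i) (hxy : x ≠ y) (hxz : x ≠ z) (hyz : y ≠ z)
    (h : ({x, y, z} : Finset (Fin n)) ∉ T) (hxD : m ≤ (outN T c x).card)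
    (hyD : m ≤ (outN T c y).card) : False := by
  have hd := disj hT hx hy hz hxy hxz hyz h
  have hcc : c x = c y := hx.trans hy.symm
  obtain ⟨w, h1, h2⟩ := exists_back hm hcc hd hxD
  obtain ⟨w', h3, h4⟩ := exists_back hm hcc.symm hd.symm hyD
  have hw : c w ≠ c x := Ne.symm h1.1
  have hw' : c w' ≠ c x := h4.1
  obtain ⟨j, hj⟩ : ∃ j : Fin 2, c x ≠ j ∧ c w = j := ⟨c w, h1.1, rfl⟩
  have h5 : c w' = j := two_cl hj.1 hw'
  exact no_four_cycle hT hcc (hj.2.trans h5.symm) ⟨h1, h2, h3, h4⟩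

theorem one_De' (hT : Cov T) (hm : ∀ x, (tw T c x).card < m) {x y z : Fin n} (hz : c z = i)
    (hxy : x ≠ y) (hxz : x ≠ z) (hyz : y ≠ z) (h : ({x, y, z} : Finset (Fin n)) ∉ T)
    (hxD : x ∈ De T c i m) (hyD : y ∈ De T c i m) : False :=
  one_De hT hm (mem_De.1 hxD).1 (mem_De.1 hyD).1 hz hxy hxz hyz h (mem_De.1 hxD).2
    (mem_De.1 hyD).2

/-- the vertices of the other class without an arc to `x` -/
noncomputable def Xc (T : Finset (Finset (Fin n))) (c : Fin n → Fin 2) (x : Fin n) :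
    Finset (Fin n) := univ.filter fun y => c y ≠ c x ∧ ¬ arc T c y x

theorem Xc_card (hm : ∀ x, (tw T c x).card < m) {x : Fin n} (hx : (outN T c x).card < m) :
    (Xc T c x).card ≤ 2 * m := by
  have h1 : Xc T c x ⊆ outN T c x ∪ tw T c x := by
    intro y hy
    unfold Xc at hy
    rw [mem_filter] at hy
    rw [mem_union, mem_outN]
    by_cases h : Mate T c x y ∧ Mate T c y x
    · right
      unfold tw
      rw [mem_filter]
      exact ⟨mem_univ _, Ne.symm hy.2.1, h⟩
    · left
      rcases arc_or (Ne.symm hy.2.1) h with h' | h'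
      · exact h'
      · exact absurd h' hy.2.2
  have h2 := card_le_card h1
  have h3 := card_union_le (outN T c x) (tw T c x)
  have h4 := hm x
  omega

/-- the other class is almost a clique -/
theorem miss_other (hT : Cov T) (hij : i ≠ j) (hm : ∀ x, (tw T c x).card < m) {x0 : Fin n}
    (h0 : x0 ∈ Ee T c i m) : miss T c j ≤ 12 * (m : ℝ) ^ 2 * n := by
  obtain ⟨X, hX⟩ : ∃ X, X = Xc T c x0 := ⟨_, rfl⟩
  have hXc : (X.card : ℝ) ≤ 2 * m := by
    have := Xc_card hm (mem_Ee.1 h0).2
    rw [hX]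
    exact_mod_cast this
  have hX0 : (0 : ℝ) ≤ X.card := by positivity
  have hc0 := (mem_Ee.1 h0).1
  have hin : ∀ y : Fin n, c y = j → y ∉ X → arc T c y x0 := by
    intro y hy hyX
    by_contra h
    apply hyX
    rw [hX]
    unfold Xc
    rw [mem_filter]
    exact ⟨mem_univ _, by rw [hy, hc0]; exact Ne.symm hij, h⟩
  have hno : ∀ x y z : Fin n, c x = j → c y = j → c z = j → x ≠ y → x ≠ z → y ≠ z →
      ({x, y, z} : Finset (Fin n)) ∉ T → x ∈ X ∨ y ∈ X := by
    intro x y z hx hy hz hxy hxz hyz h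
    by_contra hc
    push Not at hc
    have hd := disj hT hx hy hz hxy hxz hyz h
    exact absurd (mem_outN.2 (hin y hy hc.2)) (disjoint_left.1 hd (mem_outN.2 (hin x hx hc.1)))
  have hpt : ∀ x y z : Fin n, ind (c x = j ∧ c y = j ∧ c z = j ∧ x ≠ y ∧ x ≠ z ∧ y ≠ z ∧
      ({x, y, z} : Finset (Fin n)) ∉ T) ≤ ind (x ∈ X) * ind (y ∈ X) + ind (x ∈ X) * ind (z ∈ X) +
        ind (y ∈ X) * ind (z ∈ X) := by
    intro x y z
    have n1 := ind_nonneg (x ∈ X)
    have n2 := ind_nonneg (y ∈ X)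
    have n3 := ind_nonneg (z ∈ X)
    have hnn : 0 ≤ ind (x ∈ X) * ind (y ∈ X) + ind (x ∈ X) * ind (z ∈ X) +
        ind (y ∈ X) * ind (z ∈ X) := by positivity
    by_cases h : c x = j ∧ c y = j ∧ c z = j ∧ x ≠ y ∧ x ≠ z ∧ y ≠ z ∧
      ({x, y, z} : Finset (Fin n)) ∉ T
    · rw [ind_true h]
      obtain ⟨hx, hy, hz, hxy, hxz, hyz, hmT⟩ := h
      have s1 : ({x, z, y} : Finset (Fin n)) ∉ T := by
        rwa [show ({x, z, y} : Finset (Fin n)) = {x, y, z} by rw [pair_comm]]
      have s2 : ({y, z, x} : Finset (Fin n)) ∉ T := by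
        rwa [show ({y, z, x} : Finset (Fin n)) = {x, y, z} by
          ext w; simp only [mem_insert, mem_singleton]; tauto]
      have o1 := hno x y z hx hy hz hxy hxz hyz hmT
      have o2 := hno x z y hx hz hy hxz hxy (Ne.symm hyz) s1
      have o3 := hno y z x hy hz hx hyz (Ne.symm hxy) (Ne.symm hxz) s2
      by_cases hxX : x ∈ X <;> by_cases hyX : y ∈ X <;> by_cases hzX : z ∈ X <;>
        simp only [ind_true, ind_false, hxX, hyX, hzX, not_false_eq_true] <;>
        first | (norm_num; done) | (exfalso; tauto)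
    · rw [ind_false h]
      exact hnn
  have hsum : ∑ x : Fin n, ∑ y : Fin n, ∑ z : Fin n, (ind (x ∈ X) * ind (y ∈ X) +
      ind (x ∈ X) * ind (z ∈ X) + ind (y ∈ X) * ind (z ∈ X)) = 3 * (X.card : ℝ) ^ 2 * n := by
    have hi : ∑ x : Fin n, ind (x ∈ X) = (X.card : ℝ) := by
      rw [sum_ind]
      congr 2
      ext x
      simp
    simp only [sum_add_distrib, ← mul_sum, ← sum_mul, sum_const, nsmul_eq_mul, card_univ,
      Fintype.card_fin, hi]
    ring
  calc miss T c j ≤ ∑ x : Fin n, ∑ y : Fin n, ∑ z : Fin n, (ind (x ∈ X) * ind (y ∈ X) +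
      ind (x ∈ X) * ind (z ∈ X) + ind (y ∈ X) * ind (z ∈ X)) :=
        sum_le_sum fun x _ => sum_le_sum fun y _ => sum_le_sum fun z _ => hpt x y z
    _ = 3 * (X.card : ℝ) ^ 2 * n := hsum
    _ ≤ 3 * (2 * (m : ℝ)) ^ 2 * n := by gcongr
    _ = 12 * (m : ℝ) ^ 2 * n := by ring

theorem sum_ind_mul (W : Finset (Fin n)) (f : Fin n → ℝ) :
    ∑ x, ind (x ∈ W) * f x = ∑ x ∈ W, f x := by
  rw [← sum_filter_add_sum_filter_not univ (fun x => x ∈ W)]
  have h1 : ∑ x ∈ univ.filter (fun x => ¬ x ∈ W), ind (x ∈ W) * f x = 0 := by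
    apply sum_eq_zero
    intro x hx
    rw [mem_filter] at hx
    rw [ind_false hx.2, zero_mul]
  rw [h1, add_zero]
  have h2 : univ.filter (fun x => x ∈ W) = W := by ext x; simp
  rw [h2]
  refine sum_congr rfl fun x hx => ?_
  rw [ind_true hx, one_mul]

/-- the missing triples of the class `i` -/
theorem miss_split (hT : Cov T) (hm : ∀ x, (tw T c x).card < m) :
    miss T c i ≤ mis T (Ee T c i m) +
      3 * ∑ d ∈ De T c i m, (((Ee T c i m).card : ℝ) ^ 2 - lam T (Ee T c i m) d) := by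
  obtain ⟨D, hD⟩ : ∃ D, D = De T c i m := ⟨_, rfl⟩
  obtain ⟨E, hE⟩ : ∃ E, E = Ee T c i m := ⟨_, rfl⟩
  rw [← hD, ← hE]
  obtain ⟨g, hg⟩ : ∃ g : Fin n → Fin n → Fin n → ℝ, g = fun d x y =>
    ind (x ≠ y ∧ ({d, x, y} : Finset (Fin n)) ∉ T) := ⟨_, rfl⟩
  have hg0 : ∀ d x y, 0 ≤ g d x y := fun d x y => by rw [hg]; exact ind_nonneg _
  obtain ⟨G, hG⟩ : ∃ G : Fin n → Fin n → Fin n → ℝ, G = fun d x y =>
    ind (d ∈ D) * (ind (x ∈ E) * (ind (y ∈ E) * g d x y)) := ⟨_, rfl⟩
  have hG0 : ∀ d x y, 0 ≤ G d x y := fun d x y => by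
    rw [hG]
    exact mul_nonneg (ind_nonneg _) (mul_nonneg (ind_nonneg _) (mul_nonneg (ind_nonneg _)
      (hg0 _ _ _)))
  obtain ⟨H, hH⟩ : ∃ H : Fin n → Fin n → Fin n → ℝ, H = fun x y z =>
    ind (x ∈ E) * (ind (y ∈ E) * (ind (z ∈ E) * chi T x y z)) := ⟨_, rfl⟩
  have hH0 : ∀ x y z, 0 ≤ H x y z := fun x y z => by
    rw [hH]
    exact mul_nonneg (ind_nonneg _) (mul_nonneg (ind_nonneg _) (mul_nonneg (ind_nonneg _)
      (chi_nonneg _ _ _)))
  have hpt : ∀ x y z : Fin n, ind (c x = i ∧ c y = i ∧ c z = i ∧ x ≠ y ∧ x ≠ z ∧ y ≠ z ∧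
      ({x, y, z} : Finset (Fin n)) ∉ T) ≤ H x y z + G x y z + G y x z + G z x y := by
    intro x y z
    by_cases h : c x = i ∧ c y = i ∧ c z = i ∧ x ≠ y ∧ x ≠ z ∧ y ≠ z ∧
      ({x, y, z} : Finset (Fin n)) ∉ T
    · rw [ind_true h]
      obtain ⟨hx, hy, hz, hxy, hxz, hyz, hmT⟩ := h
      have s1 : ({x, z, y} : Finset (Fin n)) ∉ T := by
        rwa [show ({x, z, y} : Finset (Fin n)) = {x, y, z} by rw [pair_comm]]
      have s2 : ({y, z, x} : Finset (Fin n)) ∉ T := by
        rwa [show ({y, z, x} : Finset (Fin n)) = {x, y, z} by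
          ext w; simp only [mem_insert, mem_singleton]; tauto]
      have s3 : ({y, x, z} : Finset (Fin n)) ∉ T := by
        rwa [show ({y, x, z} : Finset (Fin n)) = {x, y, z} by
          ext w; simp only [mem_insert, mem_singleton]; tauto]
      have s4 : ({z, x, y} : Finset (Fin n)) ∉ T := by
        rwa [show ({z, x, y} : Finset (Fin n)) = {x, y, z} by
          ext w; simp only [mem_insert, mem_singleton]; tauto]
      have a1 := hG0 x y z
      have a2 := hG0 y x z
      have a3 := hG0 z x y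
      have a4 := hH0 x y z
      rcases De_or_Ee (T := T) (m := m) hx with h1 | h1
      · rcases De_or_Ee (T := T) (m := m) hy with h2 | h2
        · exact (one_De' hT hm hz hxy hxz hyz hmT h1 h2).elim
        rcases De_or_Ee (T := T) (m := m) hz with h3 | h3
        · exact (one_De' hT hm hy hxz hxy (Ne.symm hyz) s1 h1 h3).elim
        have : G x y z = 1 := by
          rw [hG, hg]
          show ind (x ∈ D) * (ind (y ∈ E) * (ind (z ∈ E) *
            ind (y ≠ z ∧ ({x, y, z} : Finset (Fin n)) ∉ T))) = 1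
          rw [hD, hE, ind_true h1, ind_true h2, ind_true h3, ind_true ⟨hyz, hmT⟩]
          norm_num
        linarith
      · rcases De_or_Ee (T := T) (m := m) hy with h2 | h2
        · rcases De_or_Ee (T := T) (m := m) hz with h3 | h3
          · exact (one_De' hT hm hx hyz (Ne.symm hxy) (Ne.symm hxz) s2 h2 h3).elim
          have : G y x z = 1 := by
            rw [hG, hg]
            show ind (y ∈ D) * (ind (x ∈ E) * (ind (z ∈ E) *
              ind (x ≠ z ∧ ({y, x, z} : Finset (Fin n)) ∉ T))) = 1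
            rw [hD, hE, ind_true h1, ind_true h2, ind_true h3, ind_true ⟨hxz, s3⟩]
            norm_num
          linarith
        · rcases De_or_Ee (T := T) (m := m) hz with h3 | h3
          · have : G z x y = 1 := by
              rw [hG, hg]
              show ind (z ∈ D) * (ind (x ∈ E) * (ind (y ∈ E) *
                ind (x ≠ y ∧ ({z, x, y} : Finset (Fin n)) ∉ T))) = 1
              rw [hD, hE, ind_true h1, ind_true h2, ind_true h3, ind_true ⟨hxy, s4⟩]
              norm_num
            linarith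
          · have : H x y z = 1 := by
              rw [hH]
              show ind (x ∈ E) * (ind (y ∈ E) * (ind (z ∈ E) * chi T x y z)) = 1
              unfold chi
              rw [hE, ind_true h1, ind_true h2, ind_true h3, ind_true ⟨hxy, hxz, hyz, hmT⟩]
              norm_num
            linarith
    · rw [ind_false h]
      have a1 := hG0 x y z
      have a2 := hG0 y x z
      have a3 := hG0 z x y
      have a4 := hH0 x y z
      linarith
  have e0 : ∑ x : Fin n, ∑ y : Fin n, ∑ z : Fin n, H x y z = mis T E := by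
    rw [hH]
    unfold mis
    simp only [← mul_sum]
    rw [sum_ind_mul]
    refine sum_congr rfl fun x _ => ?_
    rw [sum_ind_mul]
    refine sum_congr rfl fun y _ => ?_
    rw [sum_ind_mul]
  obtain ⟨Γ, hΓ⟩ : ∃ Γ : ℝ, Γ = ∑ d ∈ D, ∑ x ∈ E, ∑ y ∈ E, g d x y := ⟨_, rfl⟩
  have e1 : ∑ x : Fin n, ∑ y : Fin n, ∑ z : Fin n, G x y z = Γ := by
    rw [hG, hΓ]
    simp only [← mul_sum]
    rw [sum_ind_mul]
    refine sum_congr rfl fun x _ => ?_
    rw [sum_ind_mul]
    refine sum_congr rfl fun y _ => ?_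
    rw [sum_ind_mul]
  have e2 : ∑ x : Fin n, ∑ y : Fin n, ∑ z : Fin n, G y x z = Γ := by
    rw [sum_comm]
    exact e1
  have e3 : ∑ x : Fin n, ∑ y : Fin n, ∑ z : Fin n, G z x y = Γ := by
    rw [← e1]
    calc ∑ x : Fin n, ∑ y : Fin n, ∑ z : Fin n, G z x y =
        ∑ x : Fin n, ∑ z : Fin n, ∑ y : Fin n, G z x y := sum_congr rfl fun x _ => sum_comm
      _ = ∑ z : Fin n, ∑ x : Fin n, ∑ y : Fin n, G z x y := sum_comm
  have h1 : miss T c i ≤ mis T E + 3 * Γ := by
    calc miss T c i ≤ ∑ x : Fin n, ∑ y : Fin n, ∑ z : Fin n,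
          (H x y z + G x y z + G y x z + G z x y) :=
          sum_le_sum fun x _ => sum_le_sum fun y _ => sum_le_sum fun z _ => hpt x y z
      _ = mis T E + 3 * Γ := by
          simp only [sum_add_distrib]
          rw [e0, e1, e2, e3]
          ring
  have h2 : Γ ≤ ∑ d ∈ D, ((E.card : ℝ) ^ 2 - lam T E d) := by
    rw [hΓ]
    refine sum_le_sum fun d _ => ?_
    have h3 : ∑ x ∈ E, ∑ y ∈ E, g d x y + lam T E d ≤ (E.card : ℝ) ^ 2 := by
      unfold lam
      rw [← sum_add_distrib]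
      calc ∑ x ∈ E, (∑ y ∈ E, g d x y +
            ∑ y ∈ E, ind (x ≠ y ∧ ({d, x, y} : Finset (Fin n)) ∈ T)) ≤
          ∑ _x ∈ E, (E.card : ℝ) := by
            refine sum_le_sum fun x _ => ?_
            rw [← sum_add_distrib]
            calc ∑ y ∈ E, (g d x y + ind (x ≠ y ∧ ({d, x, y} : Finset (Fin n)) ∈ T)) ≤
                ∑ _y ∈ E, (1 : ℝ) := by
                  refine sum_le_sum fun y _ => ?_
                  rw [hg]
                  show ind (x ≠ y ∧ ({d, x, y} : Finset (Fin n)) ∉ T) +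
                    ind (x ≠ y ∧ ({d, x, y} : Finset (Fin n)) ∈ T) ≤ 1
                  by_cases hmT : ({d, x, y} : Finset (Fin n)) ∈ T
                  · rw [ind_false (fun h => h.2 hmT)]
                    have := ind_le_one (x ≠ y ∧ ({d, x, y} : Finset (Fin n)) ∈ T)
                    linarith
                  · rw [ind_false (fun h : x ≠ y ∧ ({d, x, y} : Finset (Fin n)) ∈ T => hmT h.2)]
                    have := ind_le_one (x ≠ y ∧ ({d, x, y} : Finset (Fin n)) ∉ T)
                    linarith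
              _ = (E.card : ℝ) := by rw [sum_const, nsmul_eq_mul, mul_one]
        _ = (E.card : ℝ) ^ 2 := by rw [sum_const, nsmul_eq_mul, sq]
    linarith
  linarith

end Pool.Agent.Zk14.TP
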