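import Pool.Agent.Zk14.TP.Base
import Pool.Agent.Zk14.OW.Dist

/-!
# Two classes: many vertices of the class have many outneighbours

The covering is changed so that the class becomes the union of two cliques `D` and `E`, all pairs
between them being oriented from `E` to `D`.
-/

set_option autoImplicit false
open Finset
open scoped Classical

namespace Pool.Agent.Zk14.TP
open Pool.Agent.Zk14.OW Pool.Agent.Zk14.OneWay

variable {n m : ℕ} {T : Finset (Finset (Fin n))} {c : Fin n → Fin 2} {i j : Fin 2}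

/-- the changed covering -/
noncomputable def T' (T : Finset (Finset (Fin n))) (D E : Finset (Fin n)) :
    Finset (Finset (Fin n)) :=
  univ.filter fun e => e.card = 3 ∧
    ((2 ≤ (e ∩ E).card ∧ Disjoint e D) ∨ (e ∈ T ∧ (e ∩ E).card ≤ 1))

theorem mem_T' {D E e : Finset (Fin n)} : e ∈ T' T D E ↔ e.card = 3 ∧
    ((2 ≤ (e ∩ E).card ∧ Disjoint e D) ∨ (e ∈ T ∧ (e ∩ E).card ≤ 1)) := by
  unfold T'
  simp

/-- two vertices of `D` and a vertex of the class -/
theorem mem_of_De (hT : Cov T) (hm : ∀ x, (tw T c x).card < m) {x y z : Fin n}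
    (hx : x ∈ De T c i m) (hy : y ∈ De T c i m) (hz : c z = i) (hxy : x ≠ y) (hxz : x ≠ z)
    (hyz : y ≠ z) : ({x, y, z} : Finset (Fin n)) ∈ T := by
  by_contra h
  exact one_De' hT hm hz hxy hxz hyz h hx hy

theorem cov_T' (hT : Cov T) (hm : ∀ x, (tw T c x).card < m) :
    Covering (T' T (De T c i m) (Ee T c i m)) := by
  obtain ⟨D, hD⟩ : ∃ D, D = De T c i m := ⟨_, rfl⟩
  obtain ⟨E, hE⟩ : ∃ E, E = Ee T c i m := ⟨_, rfl⟩
  have hDE : ∀ x, x ∈ D → x ∉ E := by
    intro x hx
    rw [hE]
    rw [hD] at hx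
    exact not_De_Ee hx
  rw [← hD, ← hE]
  refine ⟨fun e he => (mem_T'.1 he).1, fun S hS => ?_⟩
  rcases Nat.lt_or_ge (S ∩ E).card 2 with h2 | h2
  · obtain ⟨e, he, hes⟩ := hT.2 S hS
    refine ⟨e, mem_T'.2 ⟨hT.1 e he, Or.inr ⟨he, ?_⟩⟩, hes⟩
    have := card_le_card (inter_subset_inter_right hes : e ∩ E ⊆ S ∩ E)
    omega
  · obtain ⟨P, hPs, hPc⟩ := exists_subset_card_eq h2
    have hPS : P ⊆ S := hPs.trans inter_subset_left
    have hPE : P ⊆ E := hPs.trans inter_subset_right
    have hrest : (S \ P).card = 2 := by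
      rw [card_sdiff_of_subset hPS]; omega
    by_cases hb : ∃ b ∈ S \ P, b ∉ D
    · obtain ⟨b, hb, hbD⟩ := hb
      rw [mem_sdiff] at hb
      refine ⟨insert b P, mem_T'.2 ⟨?_, Or.inl ⟨?_, ?_⟩⟩, insert_subset hb.1 hPS⟩
      · rw [card_insert_of_notMem hb.2, hPc]
      · have h3 : P ⊆ insert b P ∩ E := by
          intro x hx
          rw [mem_inter]
          exact ⟨mem_insert_of_mem hx, hPE hx⟩
        have := card_le_card h3
        omega
      · rw [disjoint_left]
        intro x hx hxD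
        rw [mem_insert] at hx
        rcases hx with rfl | hx
        · exact hbD hxD
        · exact hDE x hxD (hPE hx)
    · push Not at hb
      obtain ⟨d, d', hdd, hSP⟩ := card_eq_two.1 hrest
      have hd : d ∈ S \ P := by rw [hSP]; simp
      have hd' : d' ∈ S \ P := by rw [hSP]; simp
      have hdD := hb d hd
      have hdD' := hb d' hd'
      obtain ⟨x, hx⟩ : P.Nonempty := by rw [← card_pos]; omega
      have hxE := hPE hx
      have hdx : d ≠ x := fun h => hDE d hdD (by rw [h]; exact hxE)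
      have hdx' : d' ≠ x := fun h => hDE d' hdD' (by rw [h]; exact hxE)
      have hcx : c x = i := by rw [hE] at hxE; exact (mem_Ee.1 hxE).1
      rw [hD] at hdD hdD'
      have hm3 := mem_of_De hT hm hdD hdD' hcx hdd hdx hdx'
      refine ⟨{d, d', x}, mem_T'.2 ⟨hT.1 _ hm3, Or.inr ⟨hm3, ?_⟩⟩, ?_⟩
      · have h4 : ({d, d', x} : Finset (Fin n)) ∩ E ⊆ {x} := by
          intro y hy
          rw [mem_inter, mem_insert, mem_insert, mem_singleton] at hy
          rw [mem_singleton]
          rcases hy.1 with h | h | h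
          · exfalso
            apply hDE d (by rw [hD]; exact hdD)
            rw [← h]
            exact hy.2
          · exfalso
            apply hDE d' (by rw [hD]; exact hdD')
            rw [← h]
            exact hy.2
          · exact h
        have := card_le_card h4
        rw [card_singleton] at this
        exact this
      · intro y hy
        rw [mem_insert, mem_insert, mem_singleton] at hy
        rcases hy with rfl | rfl | rfl
        · exact (mem_sdiff.1 hd).1
        · exact (mem_sdiff.1 hd').1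
        · exact hPS hx

/-- the three classes -/
noncomputable def c3 (D E : Finset (Fin n)) (x : Fin n) : Fin 3 :=
  if x ∈ E then 0 else if x ∈ D then 1 else 2

theorem c3_E {D E : Finset (Fin n)} {x : Fin n} : c3 D E x = 0 ↔ x ∈ E := by
  unfold c3
  split_ifs with h1 h2
  · simp [h1]
  · simp [h1]
  · simp [h1]

theorem c3_D {D E : Finset (Fin n)} (hDE : ∀ x, x ∈ D → x ∉ E) {x : Fin n} :
    c3 D E x = 1 ↔ x ∈ D := by
  unfold c3
  split_ifs with h1 h2
  · simp only [Fin.isValue, Fin.reduceEq, false_iff]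
    exact fun h => hDE x h h1
  · simp [h2]
  · simp [h2]

theorem c3_B {D E : Finset (Fin n)} {x : Fin n} : c3 D E x = 2 ↔ x ∉ E ∧ x ∉ D := by
  unfold c3
  split_ifs with h1 h2
  · simp [h1]
  · simp [h2]
  · simp [h1, h2]

/-- a triple which contains two different elements of a set -/
theorem two_le_inter {E : Finset (Fin n)} {x y z : Fin n} (hx : x ∈ E) (hy : y ∈ E)
    (hxy : x ≠ y) : 2 ≤ (({x, y, z} : Finset (Fin n)) ∩ E).card := by
  have h : ({x, y} : Finset (Fin n)) ⊆ ({x, y, z} : Finset (Fin n)) ∩ E := by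
    intro w hw
    rw [mem_insert, mem_singleton] at hw
    rw [mem_inter, mem_insert, mem_insert, mem_singleton]
    rcases hw with rfl | rfl
    · exact ⟨Or.inl rfl, hx⟩
    · exact ⟨Or.inr (Or.inl rfl), hy⟩
  have := card_le_card h
  rwa [card_pair hxy] at this

/-- a member of the changed covering with an element of `D` or two elements outside `E` is a member
of the covering -/
theorem mem_old {D E : Finset (Fin n)} {x y z : Fin n}
    (h : ({x, y, z} : Finset (Fin n)) ∈ T' T D E) (hx : x ∉ E) (hy : y ∉ E) :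
    ({x, y, z} : Finset (Fin n)) ∈ T := by
  rw [mem_T'] at h
  rcases h.2 with h1 | h1
  · exfalso
    have h2 : ({x, y, z} : Finset (Fin n)) ∩ E ⊆ {z} := by
      intro w hw
      rw [mem_inter, mem_insert, mem_insert, mem_singleton] at hw
      rw [mem_singleton]
      rcases hw.1 with h3 | h3 | h3
      · exact absurd hw.2 (by rw [h3]; exact hx)
      · exact absurd hw.2 (by rw [h3]; exact hy)
      · exact h3
    have := card_le_card h2
    rw [card_singleton] at this
    omega
  · exact h1.1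

/-- the two-way pairs of the changed covering -/
theorem twoWay_T' (hij : i ≠ j) (hm : ∀ x, (tw T c x).card < m) :
    (twoWay (T' T (De T c i m) (Ee T c i m)) (c3 (De T c i m) (Ee T c i m))).card ≤
      6 * m * n := by
  obtain ⟨D, hD⟩ : ∃ D, D = De T c i m := ⟨_, rfl⟩
  obtain ⟨E, hE⟩ : ∃ E, E = Ee T c i m := ⟨_, rfl⟩
  have hDE : ∀ x, x ∈ D → x ∉ E := by
    intro x hx
    rw [hE]
    rw [hD] at hx
    exact not_De_Ee hx
  have hcD : ∀ x, x ∈ D → c x = i := fun x hx => by rw [hD] at hx; exact (mem_De.1 hx).1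
  have hcE : ∀ x, x ∈ E → c x = i := fun x hx => by rw [hE] at hx; exact (mem_Ee.1 hx).1
  have hcB : ∀ x, x ∉ E → x ∉ D → c x = j := by
    intro x h1 h2
    apply two_cl hij
    intro h
    rcases De_or_Ee (T := T) (m := m) h with h3 | h3
    · exact h2 (by rw [hD]; exact h3)
    · exact h1 (by rw [hE]; exact h3)
  rw [← hD, ← hE]
  obtain ⟨Y, hY⟩ : ∃ Y : Fin n → Finset (Fin n), Y = fun x =>
    if x ∈ E then Xc T c x ∪ tw T c x else tw T c x := ⟨_, rfl⟩
  have hYc : ∀ x, (Y x).card ≤ 3 * m := by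
    intro x
    rw [hY]
    show (if x ∈ E then Xc T c x ∪ tw T c x else tw T c x).card ≤ 3 * m
    have h1 := hm x
    split_ifs with h
    · rw [hE] at h
      have h2 := Xc_card hm (mem_Ee.1 h).2
      have h3 := card_union_le (Xc T c x) (tw T c x)
      omega
    · omega
  -- a two-way pair of a vertex `x` in `D ∪ E` and another vertex
  have hDE0 : ∀ d x, d ∈ D → x ∈ E → ¬ Attached (T' T D E) (c3 D E) x d := by
    rintro d x hd hx ⟨z, hzx, hcz, hmem⟩
    have hz : z ∈ E := c3_E.1 (hcz.trans (c3_E.2 hx))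
    have h2 := two_le_inter (z := d) hx hz (Ne.symm hzx)
    rw [mem_T'] at hmem
    rcases hmem.2 with h3 | h3
    · exact disjoint_left.1 h3.2 (by simp) hd
    · omega
  have hDB : ∀ d y, d ∈ D → y ∉ E → y ∉ D → Attached (T' T D E) (c3 D E) d y →
      Attached (T' T D E) (c3 D E) y d → y ∈ Y d := by
    rintro d y hd hy1 hy2 ⟨z, hzd, hcz, hmem⟩ ⟨w, hwy, hcw, hmem'⟩
    have hz : z ∈ D := (c3_D hDE).1 (hcz.trans ((c3_D hDE).2 hd))
    have hw := c3_B.1 (hcw.trans (c3_B.2 ⟨hy1, hy2⟩))
    have h1 := mem_old hmem (hDE d hd) (hDE z hz)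
    have h2 := mem_old hmem' hy1 hw.1
    rw [hY]
    show y ∈ if d ∈ E then Xc T c d ∪ tw T c d else tw T c d
    rw [if_neg (hDE d hd)]
    unfold tw
    rw [mem_filter]
    refine ⟨mem_univ _, ?_, ⟨z, hzd, ?_, h1⟩, ⟨w, hwy, ?_, h2⟩⟩
    · rw [hcD d hd, hcB y hy1 hy2]; exact hij
    · rw [hcD d hd, hcD z hz]
    · rw [hcB y hy1 hy2, hcB w hw.1 hw.2]
  have hEB : ∀ x y, x ∈ E → y ∉ E → y ∉ D → Attached (T' T D E) (c3 D E) y x → y ∈ Y x := by
    rintro x y hx hy1 hy2 ⟨w, hwy, hcw, hmem'⟩
    have hw := c3_B.1 (hcw.trans (c3_B.2 ⟨hy1, hy2⟩))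
    have h2 := mem_old hmem' hy1 hw.1
    rw [hY]
    show y ∈ if x ∈ E then Xc T c x ∪ tw T c x else tw T c x
    rw [if_pos hx, mem_union]
    left
    unfold Xc
    rw [mem_filter]
    refine ⟨mem_univ _, ?_, ?_⟩
    · rw [hcE x hx, hcB y hy1 hy2]; exact Ne.symm hij
    · intro h
      exact h.2.1 ⟨w, hwy, by rw [hcB y hy1 hy2, hcB w hw.1 hw.2], h2⟩
  have hall : ∀ x y, c3 D E x ≠ c3 D E y → Attached (T' T D E) (c3 D E) x y →
      Attached (T' T D E) (c3 D E) y x → y ∈ Y x ∨ x ∈ Y y := by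
    intro x y hxy h1 h2
    by_cases hxE : x ∈ E
    · by_cases hyE : y ∈ E
      · exact absurd ((c3_E.2 hxE).trans (c3_E.2 hyE).symm) hxy
      · by_cases hyD : y ∈ D
        · exact absurd h1 (hDE0 y x hyD hxE)
        · exact Or.inl (hEB x y hxE hyE hyD h2)
    · by_cases hxD : x ∈ D
      · by_cases hyE : y ∈ E
        · exact absurd h2 (hDE0 x y hxD hyE)
        · by_cases hyD : y ∈ D
          · exact absurd (((c3_D hDE).2 hxD).trans ((c3_D hDE).2 hyD).symm) hxy
          · exact Or.inl (hDB x y hxD hyE hyD h1 h2)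
      · by_cases hyE : y ∈ E
        · exact Or.inr (hEB y x hyE hxE hxD h1)
        · by_cases hyD : y ∈ D
          · exact Or.inr (hDB y x hyD hxE hxD h2 h1)
          · exact absurd ((c3_B.2 ⟨hxE, hxD⟩).trans (c3_B.2 ⟨hyE, hyD⟩).symm) hxy
  have hsub : twoWay (T' T D E) (c3 D E) ⊆ (univ.sigma Y).image (fun p => (p.1, p.2)) ∪
      (univ.sigma Y).image (fun p => (p.2, p.1)) := by
    rintro ⟨x, y⟩ hp
    unfold twoWay at hp
    rw [mem_filter] at hp
    obtain ⟨-, -, hc, h1, h2⟩ := hp
    rw [mem_union, mem_image, mem_image]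
    rcases hall x y hc h1 h2 with h | h
    · exact Or.inl ⟨⟨x, y⟩, mem_sigma.2 ⟨mem_univ _, h⟩, rfl⟩
    · exact Or.inr ⟨⟨y, x⟩, mem_sigma.2 ⟨mem_univ _, h⟩, rfl⟩
  have h1 := card_le_card hsub
  have h2 := card_union_le ((univ.sigma Y).image (fun p => (p.1, p.2)))
    ((univ.sigma Y).image (fun p => (p.2, p.1)))
  have h3 : ((univ.sigma Y).image (fun p => (p.1, p.2))).card ≤ (univ.sigma Y).card :=
    card_image_le
  have h4 : ((univ.sigma Y).image (fun p => (p.2, p.1))).card ≤ (univ.sigma Y).card :=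
    card_image_le
  have h5 : (univ.sigma Y).card ≤ n * (3 * m) := by
    rw [card_sigma]
    calc ∑ x : Fin n, (Y x).card ≤ ∑ _x : Fin n, 3 * m := sum_le_sum fun x _ => hYc x
      _ = n * (3 * m) := by rw [sum_const, card_univ, Fintype.card_fin, smul_eq_mul]
  have h6 : n * (3 * m) + n * (3 * m) = 6 * m * n := by ring
  omega

/-- the missing triples of large classes of the changed covering are in the other class -/
theorem holes_T' (hT : Cov T) (hij : i ≠ j) (hm : ∀ x, (tw T c x).card < m) :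
    6 * ((holes (T' T (De T c i m) (Ee T c i m)) (c3 (De T c i m) (Ee T c i m))).card : ℝ) ≤
      miss T c j := by
  obtain ⟨D, hD⟩ : ∃ D, D = De T c i m := ⟨_, rfl⟩
  obtain ⟨E, hE⟩ : ∃ E, E = Ee T c i m := ⟨_, rfl⟩
  have hDE : ∀ x, x ∈ D → x ∉ E := by
    intro x hx
    rw [hE]
    rw [hD] at hx
    exact not_De_Ee hx
  have hcB : ∀ x, x ∉ E → x ∉ D → c x = j := by
    intro x h1 h2
    apply two_cl hij
    intro h
    rcases De_or_Ee (T := T) (m := m) h with h3 | h3
    · exact h2 (by rw [hD]; exact h3)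
    · exact h1 (by rw [hE]; exact h3)
  rw [← hD, ← hE]
  refine six_card_le _ (fun e he => ?_) (fun x y z => ind (c x = j ∧ c y = j ∧ c z = j ∧ x ≠ y ∧
    x ≠ z ∧ y ≠ z ∧ ({x, y, z} : Finset (Fin n)) ∉ T)) (fun _ _ _ => ind_nonneg _) ?_
  · unfold holes at he
    rw [mem_filter] at he
    exact he.2.1
  intro x y z hxy hxz hyz h
  unfold holes at h
  rw [mem_filter] at h
  obtain ⟨-, h3, hno, k, -, hsub⟩ := h
  have hk : ∀ w ∈ ({x, y, z} : Finset (Fin n)), c3 D E w = k := by
    intro w hw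
    have := hsub hw
    unfold part at this
    rw [mem_filter] at this
    exact this.2
  have hx := hk x (by simp)
  have hy := hk y (by simp)
  have hz := hk z (by simp)
  rw [mem_T'] at hno
  push Not at hno
  have hno' := hno h3
  have hk3 : k = 0 ∨ k = 1 ∨ k = 2 := by
    fin_cases k <;> simp
  rcases hk3 with rfl | rfl | rfl
  · exfalso
    rw [c3_E] at hx hy hz
    apply hno'.1 (two_le_inter hx hy hxy)
    rw [disjoint_left]
    intro w hw hwD
    rw [mem_insert, mem_insert, mem_singleton] at hw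
    rcases hw with rfl | rfl | rfl
    · exact hDE _ hwD hx
    · exact hDE _ hwD hy
    · exact hDE _ hwD hz
  · exfalso
    rw [c3_D hDE] at hx hy hz
    have h4 : ({x, y, z} : Finset (Fin n)) ∈ T := by
      have hx' := hx
      have hy' := hy
      have hz' := hz
      rw [hD] at hx' hy' hz'
      exact mem_of_De hT hm hx' hy' (mem_De.1 hz').1 hxy hxz hyz
    have h5 := hno'.2 h4
    have h6 : ({x, y, z} : Finset (Fin n)) ∩ E = ∅ := by
      rw [← disjoint_iff_inter_eq_empty, disjoint_left]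
      intro w hw hwE
      rw [mem_insert, mem_insert, mem_singleton] at hw
      rcases hw with rfl | rfl | rfl
      · exact hDE _ hx hwE
      · exact hDE _ hy hwE
      · exact hDE _ hz hwE
    rw [h6, card_empty] at h5
    omega
  · rw [c3_B] at hx hy hz
    have h4 : ({x, y, z} : Finset (Fin n)) ∉ T := by
      intro h4
      have h5 := hno'.2 h4
      have h6 : ({x, y, z} : Finset (Fin n)) ∩ E = ∅ := by
        rw [← disjoint_iff_inter_eq_empty, disjoint_left]
        intro w hw hwE
        rw [mem_insert, mem_insert, mem_singleton] at hw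
        rcases hw with rfl | rfl | rfl
        · exact hx.1 hwE
        · exact hy.1 hwE
        · exact hz.1 hwE
      rw [h6, card_empty] at h5
      omega
    exact (ind_true ⟨hcB x hx.1 hx.2, hcB y hy.1 hy.2, hcB z hz.1 hz.2, hxy, hxz, hyz, h4⟩).ge

end Pool.Agent.Zk14.TP
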