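import Pool.Agent.Zk14.TP.CaseA

/-!
# The number of triples of the changed covering
-/

set_option autoImplicit false
open Finset
open scoped Classical

namespace Pool.Agent.Zk14.TP
open Pool.Agent.Zk14.OW Pool.Agent.Zk14.OneWay

variable {n m : ℕ} {T : Finset (Finset (Fin n))} {c : Fin n → Fin 2} {i j : Fin 2}

/-- the removed triples -/
noncomputable def rem (T : Finset (Finset (Fin n))) (D E : Finset (Fin n)) :
    Finset (Finset (Fin n)) := T.filter fun e => 2 ≤ (e ∩ E).card ∧ ¬ Disjoint e D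

/-- the new triples -/
noncomputable def new (T : Finset (Finset (Fin n))) (D E : Finset (Fin n)) :
    Finset (Finset (Fin n)) :=
  univ.filter fun e => e.card = 3 ∧ e ∉ T ∧ 2 ≤ (e ∩ E).card ∧ Disjoint e D

theorem card_T' (T : Finset (Finset (Fin n))) (D E : Finset (Fin n)) :
    (T' T D E).card + (rem T D E).card ≤ T.card + (new T D E).card := by
  have h1 : T' T D E ⊆ (T \ rem T D E) ∪ new T D E := by
    intro e he
    rw [mem_T'] at he
    rw [mem_union, mem_sdiff]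
    unfold rem new
    rw [mem_filter, mem_filter]
    by_cases hT : e ∈ T
    · left
      refine ⟨hT, ?_⟩
      rintro ⟨-, h2, h3⟩
      rcases he.2 with h | h
      · exact h3 h.2
      · omega
    · right
      rcases he.2 with h | h
      · exact ⟨mem_univ _, he.1, hT, h⟩
      · exact absurd h.1 hT
  have h2 := card_le_card h1
  have h3 := card_union_le (T \ rem T D E) (new T D E)
  have h4 : (T \ rem T D E).card = T.card - (rem T D E).card := by
    apply card_sdiff_of_subset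
    exact filter_subset _ _
  have h5 : (rem T D E).card ≤ T.card := card_le_card (filter_subset _ _)
  omega

theorem rem_ge (h3 : ∀ e ∈ T, e.card = 3) {D E : Finset (Fin n)} (hDE : ∀ x, x ∈ D → x ∉ E) :
    3 * ∑ d ∈ D, lam T E d ≤ 6 * ((rem T D E).card : ℝ) := by
  obtain ⟨g, hg⟩ : ∃ g : Fin n → Fin n → Fin n → ℝ, g = fun d x y =>
    ind (x ≠ y ∧ ({d, x, y} : Finset (Fin n)) ∈ T) := ⟨_, rfl⟩
  obtain ⟨G, hG⟩ : ∃ G : Fin n → Fin n → Fin n → ℝ, G = fun d x y =>
    ind (d ∈ D) * (ind (x ∈ E) * (ind (y ∈ E) * g d x y)) := ⟨_, rfl⟩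
  have hGv : ∀ d x y, G d x y = 0 ∨ (d ∈ D ∧ x ∈ E ∧ y ∈ E ∧ x ≠ y ∧
      ({d, x, y} : Finset (Fin n)) ∈ T ∧ G d x y = 1) := by
    intro d x y
    rw [hG, hg]
    show ind (d ∈ D) * (ind (x ∈ E) * (ind (y ∈ E) * ind (x ≠ y ∧ ({d, x, y} : Finset (Fin n)) ∈
      T))) = 0 ∨ (_ ∧ _ ∧ _ ∧ _ ∧ _ ∧ ind (d ∈ D) * (ind (x ∈ E) * (ind (y ∈ E) *
        ind (x ≠ y ∧ ({d, x, y} : Finset (Fin n)) ∈ T))) = 1)
    by_cases h1 : d ∈ D
    swap
    · left; rw [ind_false h1]; ring
    by_cases h2 : x ∈ E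
    swap
    · left; rw [ind_false h2]; ring
    by_cases h3 : y ∈ E
    swap
    · left; rw [ind_false h3]; ring
    by_cases h4 : x ≠ y ∧ ({d, x, y} : Finset (Fin n)) ∈ T
    swap
    · left; rw [ind_false h4]; ring
    right
    refine ⟨h1, h2, h3, h4.1, h4.2, ?_⟩
    rw [ind_true h1, ind_true h2, ind_true h3, ind_true h4]
    norm_num
  have hpt : ∀ x y z : Fin n, G x y z + G y x z + G z x y ≤
      ind (({x, y, z} : Finset (Fin n)) ∈ rem T D E) := by
    intro x y z
    have hrem : ∀ {a b d : Fin n}, d ∈ D → a ∈ E → b ∈ E → a ≠ b →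
        ({d, a, b} : Finset (Fin n)) ∈ T → ({d, a, b} : Finset (Fin n)) ∈ rem T D E := by
      intro a b d h1 h2 h3 h4 h5
      unfold rem
      rw [mem_filter]
      refine ⟨h5, ?_, ?_⟩
      · have := two_le_inter (z := d) h2 h3 h4
        rwa [show ({a, b, d} : Finset (Fin n)) = {d, a, b} by
          ext w; simp only [mem_insert, mem_singleton]; tauto] at this
      · rw [disjoint_left]
        intro h
        exact h (by simp) h1
    rcases hGv x y z with a1 | ⟨b1, b2, b3, b4, b5, b6⟩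
    · rcases hGv y x z with a2 | ⟨b1, b2, b3, b4, b5, b6⟩
      · rcases hGv z x y with a3 | ⟨b1, b2, b3, b4, b5, b6⟩
        · rw [a1, a2, a3]
          have := ind_nonneg (({x, y, z} : Finset (Fin n)) ∈ rem T D E)
          linarith
        · rw [a1, a2, b6]
          have h := hrem b1 b2 b3 b4 b5
          rw [show ({z, x, y} : Finset (Fin n)) = {x, y, z} by
            ext w; simp only [mem_insert, mem_singleton]; tauto] at h
          rw [ind_true h]
          norm_num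
      · have a3 : G z x y = 0 := by
          rcases hGv z x y with a3 | ⟨d1, d2, d3, -⟩
          · exact a3
          · exact absurd d3 (hDE _ b1)
        rw [a1, a3, b6]
        have h := hrem b1 b2 b3 b4 b5
        rw [show ({y, x, z} : Finset (Fin n)) = {x, y, z} by
          ext w; simp only [mem_insert, mem_singleton]; tauto] at h
        rw [ind_true h]
        norm_num
    · have a2 : G y x z = 0 := by
        rcases hGv y x z with a3 | ⟨d1, d2, d3, -⟩
        · exact a3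
        · exact absurd d2 (hDE _ b1)
      have a3 : G z x y = 0 := by
        rcases hGv z x y with a3 | ⟨d1, d2, d3, -⟩
        · exact a3
        · exact absurd d2 (hDE _ b1)
      rw [a2, a3, b6, ind_true (hrem b1 b2 b3 b4 b5)]
      norm_num
  have h4 : ∀ e ∈ rem T D E, e.card = 3 := by
    intro e he
    unfold rem at he
    exact h3 e (mem_filter.1 he).1
  have h5 := six_card_ge' h4
  have h6 : ∑ x : Fin n, ∑ y : Fin n, ∑ z : Fin n, (G x y z + G y x z + G z x y) ≤
      ∑ x : Fin n, ∑ y : Fin n, ∑ z : Fin n, ind (({x, y, z} : Finset (Fin n)) ∈ rem T D E) :=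
    sum_le_sum fun x _ => sum_le_sum fun y _ => sum_le_sum fun z _ => hpt x y z
  obtain ⟨Γ, hΓ⟩ : ∃ Γ : ℝ, Γ = ∑ d ∈ D, lam T E d := ⟨_, rfl⟩
  have e1 : ∑ x : Fin n, ∑ y : Fin n, ∑ z : Fin n, G x y z = Γ := by
    rw [hG, hΓ]
    unfold lam
    simp only [← mul_sum]
    rw [sum_ind_mul]
    refine sum_congr rfl fun x _ => ?_
    rw [sum_ind_mul]
    refine sum_congr rfl fun y _ => ?_
    rw [sum_ind_mul, hg]
  have e2 : ∑ x : Fin n, ∑ y : Fin n, ∑ z : Fin n, G y x z = Γ := by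
    rw [sum_comm]
    exact e1
  have e3 : ∑ x : Fin n, ∑ y : Fin n, ∑ z : Fin n, G z x y = Γ := by
    rw [← e1]
    calc ∑ x : Fin n, ∑ y : Fin n, ∑ z : Fin n, G z x y =
        ∑ x : Fin n, ∑ z : Fin n, ∑ y : Fin n, G z x y := sum_congr rfl fun x _ => sum_comm
      _ = ∑ z : Fin n, ∑ x : Fin n, ∑ y : Fin n, G z x y := sum_comm
  simp only [sum_add_distrib] at h6
  rw [e1, e2, e3] at h6
  rw [← hΓ]
  linarith

/-- the pairs of vertices of `E` with a vertex of the other class -/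
noncomputable def bet (T : Finset (Finset (Fin n))) (E B : Finset (Fin n)) : ℝ :=
  ∑ x ∈ E, ∑ y ∈ E, ∑ z ∈ B, chi T x y z

theorem new_le {D E B : Finset (Fin n)} (hB : ∀ x, x ∉ D → x ∉ E → x ∈ B) :
    6 * ((new T D E).card : ℝ) ≤ mis T E + 3 * bet T E B := by
  obtain ⟨F, hF⟩ : ∃ F : Finset (Fin n) → Finset (Fin n) → Finset (Fin n) → Fin n → Fin n →
      Fin n → ℝ, F = fun A1 A2 A3 x y z =>
    ind (x ∈ A1) * (ind (y ∈ A2) * (ind (z ∈ A3) * chi T x y z)) := ⟨_, rfl⟩
  have hF0 : ∀ A1 A2 A3 x y z, 0 ≤ F A1 A2 A3 x y z := by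
    intro A1 A2 A3 x y z
    rw [hF]
    exact mul_nonneg (ind_nonneg _) (mul_nonneg (ind_nonneg _) (mul_nonneg (ind_nonneg _)
      (chi_nonneg _ _ _)))
  have hF1 : ∀ A1 A2 A3 x y z, x ∈ A1 → y ∈ A2 → z ∈ A3 → chi T x y z = 1 →
      F A1 A2 A3 x y z = 1 := by
    intro A1 A2 A3 x y z h1 h2 h3 h4
    rw [hF]
    show ind (x ∈ A1) * (ind (y ∈ A2) * (ind (z ∈ A3) * chi T x y z)) = 1
    rw [ind_true h1, ind_true h2, ind_true h3, h4]
    norm_num
  have hsum : ∀ A1 A2 A3, ∑ x : Fin n, ∑ y : Fin n, ∑ z : Fin n, F A1 A2 A3 x y z =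
      ∑ x ∈ A1, ∑ y ∈ A2, ∑ z ∈ A3, chi T x y z := by
    intro A1 A2 A3
    rw [hF]
    simp only [← mul_sum]
    rw [sum_ind_mul]
    refine sum_congr rfl fun x _ => ?_
    rw [sum_ind_mul]
    refine sum_congr rfl fun y _ => ?_
    rw [sum_ind_mul]
  have h1 : 6 * ((new T D E).card : ℝ) ≤ ∑ x : Fin n, ∑ y : Fin n, ∑ z : Fin n,
      (F E E E x y z + F E E B x y z + F E B E x y z + F B E E x y z) := by
    refine six_card_le _ (fun e he => ?_) _ (fun x y z => ?_) ?_
    · unfold new at he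
      rw [mem_filter] at he
      exact he.2.1
    · have a1 := hF0 E E E x y z
      have a2 := hF0 E E B x y z
      have a3 := hF0 E B E x y z
      have a4 := hF0 B E E x y z
      linarith
    intro x y z hxy hxz hyz h
    unfold new at h
    rw [mem_filter] at h
    obtain ⟨-, h3, hno, h2, hdis⟩ := h
    have hchi : chi T x y z = 1 := ind_true ⟨hxy, hxz, hyz, hno⟩
    have hD : ∀ w ∈ ({x, y, z} : Finset (Fin n)), w ∉ D := fun w hw => disjoint_left.1 hdis hw
    have hx := hB x (hD x (by simp))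
    have hy := hB y (hD y (by simp))
    have hz := hB z (hD z (by simp))
    have a1 := hF0 E E E x y z
    have a2 := hF0 E E B x y z
    have a3 := hF0 E B E x y z
    have a4 := hF0 B E E x y z
    have honly : ∀ u, (∀ w ∈ ({x, y, z} : Finset (Fin n)), w ∈ E → w = u) → False := by
      intro u hu
      have h4 : ({x, y, z} : Finset (Fin n)) ∩ E ⊆ {u} := by
        intro w hw
        rw [mem_inter] at hw
        rw [mem_singleton]
        exact hu w hw.1 hw.2
      have := card_le_card h4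
      rw [card_singleton] at this
      omega
    by_cases hxE : x ∈ E
    · by_cases hyE : y ∈ E
      · by_cases hzE : z ∈ E
        · have := hF1 E E E x y z hxE hyE hzE hchi
          linarith
        · have := hF1 E E B x y z hxE hyE (hz hzE) hchi
          linarith
      · by_cases hzE : z ∈ E
        · have := hF1 E B E x y z hxE (hy hyE) hzE hchi
          linarith
        · exfalso
          apply honly x
          intro w hw hwE
          rw [mem_insert, mem_insert, mem_singleton] at hw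
          rcases hw with h | h | h
          · exact h
          · exact absurd (h ▸ hwE) hyE
          · exact absurd (h ▸ hwE) hzE
    · by_cases hyE : y ∈ E
      · by_cases hzE : z ∈ E
        · have := hF1 B E E x y z (hx hxE) hyE hzE hchi
          linarith
        · exfalso
          apply honly y
          intro w hw hwE
          rw [mem_insert, mem_insert, mem_singleton] at hw
          rcases hw with h | h | h
          · exact absurd (h ▸ hwE) hxE
          · exact h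
          · exact absurd (h ▸ hwE) hzE
      · exfalso
        apply honly z
        intro w hw hwE
        rw [mem_insert, mem_insert, mem_singleton] at hw
        rcases hw with h | h | h
        · exact absurd (h ▸ hwE) hxE
        · exact absurd (h ▸ hwE) hyE
        · exact h
  simp only [sum_add_distrib] at h1
  rw [hsum, hsum, hsum, hsum] at h1
  have e2 : ∑ x ∈ E, ∑ y ∈ B, ∑ z ∈ E, chi T x y z = bet T E B := by
    unfold bet
    refine sum_congr rfl fun x _ => ?_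
    rw [sum_comm]
    exact sum_congr rfl fun y _ => sum_congr rfl fun z _ => chi_swap x y z
  have e3 : ∑ x ∈ B, ∑ y ∈ E, ∑ z ∈ E, chi T x y z = bet T E B := by
    unfold bet
    calc ∑ x ∈ B, ∑ y ∈ E, ∑ z ∈ E, chi T x y z = ∑ y ∈ E, ∑ x ∈ B, ∑ z ∈ E, chi T x y z :=
          sum_comm
      _ = ∑ y ∈ E, ∑ z ∈ E, ∑ x ∈ B, chi T x y z := sum_congr rfl fun y _ => sum_comm
      _ = ∑ y ∈ E, ∑ z ∈ E, ∑ x ∈ B, chi T y z x :=
          sum_congr rfl fun y _ => sum_congr rfl fun z _ => sum_congr rfl fun x _ =>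
            (chi_rot x y z).symm
  rw [e2, e3] at h1
  have e1 : ∑ x ∈ E, ∑ y ∈ E, ∑ z ∈ B, chi T x y z = bet T E B := rfl
  have e0 : ∑ x ∈ E, ∑ y ∈ E, ∑ z ∈ E, chi T x y z = mis T E := rfl
  rw [e1, e0] at h1
  linarith

theorem bet_le (hT : Cov T) (hij : i ≠ j) (hm : ∀ x, (tw T c x).card < m) :
    bet T (Ee T c i m) (univ.filter fun x => c x = j) ≤
      4 * m * (n : ℝ) ^ 2 + 2 * (n : ℝ) ^ 2 := by
  obtain ⟨E, hE⟩ : ∃ E, E = Ee T c i m := ⟨_, rfl⟩
  obtain ⟨B, hB⟩ : ∃ B, B = univ.filter fun x => c x = j := ⟨_, rfl⟩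
  have hcE : ∀ x, x ∈ E → c x = i := fun x hx => by rw [hE] at hx; exact (mem_Ee.1 hx).1
  have hcB : ∀ x, x ∈ B → c x = j := fun x hx => by rw [hB] at hx; exact (mem_filter.1 hx).2
  rw [← hE, ← hB]
  obtain ⟨q, hq⟩ : ∃ q : Fin n → Fin n → Fin n → ℝ, q = fun z x y =>
    ind (arc T c z x ∧ arc T c z y ∧ x ≠ y ∧ ({z, x, y} : Finset (Fin n)) ∉ T) := ⟨_, rfl⟩
  have hpt : ∀ x ∈ E, ∀ y ∈ E, ∀ z ∈ B, chi T x y z ≤
      ind (z ∈ Xc T c x) + ind (z ∈ Xc T c y) + q z x y := by
    intro x hx y hy z hz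
    have n1 := ind_nonneg (z ∈ Xc T c x)
    have n2 := ind_nonneg (z ∈ Xc T c y)
    have n3 : 0 ≤ q z x y := by rw [hq]; exact ind_nonneg _
    have hcz : ∀ w, w ∈ E → z ∉ Xc T c w → arc T c z w := by
      intro w hw h
      by_contra h'
      apply h
      unfold Xc
      rw [mem_filter]
      exact ⟨mem_univ _, by rw [hcB z hz, hcE w hw]; exact Ne.symm hij, h'⟩
    by_cases h : x ≠ y ∧ x ≠ z ∧ y ≠ z ∧ ({x, y, z} : Finset (Fin n)) ∉ T
    swap
    · unfold chi
      rw [ind_false h]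
      linarith
    have hchi := chi_le (T := T) x y z
    by_cases h1 : z ∈ Xc T c x
    · rw [ind_true h1]; linarith
    by_cases h2 : z ∈ Xc T c y
    · rw [ind_true h2]; linarith
    have : q z x y = 1 := by
      rw [hq]
      apply ind_true
      refine ⟨hcz x hx h1, hcz y hy h2, h.1, ?_⟩
      have h3 := h.2.2.2
      rwa [show ({x, y, z} : Finset (Fin n)) = {z, x, y} by
        ext w; simp only [mem_insert, mem_singleton]; tauto] at h3
    linarith
  have hXc : ∀ x ∈ E, ∑ z ∈ B, ind (z ∈ Xc T c x) ≤ 2 * m := by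
    intro x hx
    calc ∑ z ∈ B, ind (z ∈ Xc T c x) ≤ ∑ z : Fin n, ind (z ∈ Xc T c x) :=
          sum_le_sum_of_subset_of_nonneg (subset_univ _) fun _ _ _ => ind_nonneg _
      _ = ((Xc T c x).card : ℝ) := by
          rw [sum_ind]
          congr 2
          ext z
          simp
      _ ≤ 2 * m := by
          rw [hE] at hx
          exact_mod_cast Xc_card hm (mem_Ee.1 hx).2
  have hEn : (E.card : ℝ) ≤ n := by
    have := card_le_univ E
    rw [Fintype.card_fin] at this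
    exact_mod_cast this
  have hE0 : (0 : ℝ) ≤ E.card := by positivity
  have hEE : (E.card : ℝ) * E.card ≤ (n : ℝ) ^ 2 := by nlinarith
  have s1 : ∑ x ∈ E, ∑ _y ∈ E, ∑ z ∈ B, ind (z ∈ Xc T c x) ≤ 2 * m * (n : ℝ) ^ 2 := by
    calc ∑ x ∈ E, ∑ _y ∈ E, ∑ z ∈ B, ind (z ∈ Xc T c x) ≤ ∑ _x ∈ E, ∑ _y ∈ E, (2 * m : ℝ) :=
          sum_le_sum fun x hx => sum_le_sum fun y _ => hXc x hx
      _ = (E.card * E.card) * (2 * m : ℝ) := by
          simp only [sum_const, nsmul_eq_mul]; ring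
      _ ≤ (n : ℝ) ^ 2 * (2 * m) := mul_le_mul_of_nonneg_right hEE (by positivity)
      _ = 2 * m * (n : ℝ) ^ 2 := by ring
  have s2 : ∑ _x ∈ E, ∑ y ∈ E, ∑ z ∈ B, ind (z ∈ Xc T c y) ≤ 2 * m * (n : ℝ) ^ 2 := by
    calc ∑ _x ∈ E, ∑ y ∈ E, ∑ z ∈ B, ind (z ∈ Xc T c y) ≤ ∑ _x ∈ E, ∑ _y ∈ E, (2 * m : ℝ) :=
          sum_le_sum fun x _ => sum_le_sum fun y hy => hXc y hy
      _ = (E.card * E.card) * (2 * m : ℝ) := by
          simp only [sum_const, nsmul_eq_mul]; ring
      _ ≤ (n : ℝ) ^ 2 * (2 * m) := mul_le_mul_of_nonneg_right hEE (by positivity)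
      _ = 2 * m * (n : ℝ) ^ 2 := by ring
  have hq0 : ∀ x y z, 0 ≤ q x y z := fun x y z => by rw [hq]; exact ind_nonneg _
  have s3 : ∑ x ∈ E, ∑ y ∈ E, ∑ z ∈ B, q z x y ≤ 2 * (n : ℝ) ^ 2 := by
    calc ∑ x ∈ E, ∑ y ∈ E, ∑ z ∈ B, q z x y ≤ ∑ x : Fin n, ∑ y : Fin n, ∑ z : Fin n, q z x y := by
          calc ∑ x ∈ E, ∑ y ∈ E, ∑ z ∈ B, q z x y ≤ ∑ x ∈ E, ∑ y ∈ E, ∑ z : Fin n, q z x y :=
                sum_le_sum fun x _ => sum_le_sum fun y _ =>
                  sum_le_sum_of_subset_of_nonneg (subset_univ _) fun _ _ _ => hq0 _ _ _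
            _ ≤ ∑ x ∈ E, ∑ y : Fin n, ∑ z : Fin n, q z x y :=
                sum_le_sum fun x _ => sum_le_sum_of_subset_of_nonneg (subset_univ _)
                  fun _ _ _ => sum_nonneg fun _ _ => hq0 _ _ _
            _ ≤ ∑ x : Fin n, ∑ y : Fin n, ∑ z : Fin n, q z x y :=
                sum_le_sum_of_subset_of_nonneg (subset_univ _) fun _ _ _ =>
                  sum_nonneg fun _ _ => sum_nonneg fun _ _ => hq0 _ _ _
      _ = ∑ x : Fin n, ∑ z : Fin n, ∑ y : Fin n, q z x y := sum_congr rfl fun x _ => sum_comm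
      _ = ∑ z : Fin n, ∑ x : Fin n, ∑ y : Fin n, q z x y := sum_comm
      _ ≤ 2 * (n : ℝ) ^ 2 := by
          have := missing_le (c := c) hT
          rw [hq]
          exact_mod_cast this
  unfold bet
  calc ∑ x ∈ E, ∑ y ∈ E, ∑ z ∈ B, chi T x y z ≤
      ∑ x ∈ E, ∑ y ∈ E, ∑ z ∈ B, (ind (z ∈ Xc T c x) + ind (z ∈ Xc T c y) + q z x y) :=
        sum_le_sum fun x hx => sum_le_sum fun y hy => sum_le_sum fun z hz => hpt x hx y hy z hz
    _ = ∑ x ∈ E, ∑ _y ∈ E, ∑ z ∈ B, ind (z ∈ Xc T c x) +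
        ∑ _x ∈ E, ∑ y ∈ E, ∑ z ∈ B, ind (z ∈ Xc T c y) + ∑ x ∈ E, ∑ y ∈ E, ∑ z ∈ B, q z x y := by
        simp only [sum_add_distrib]
    _ ≤ 4 * m * (n : ℝ) ^ 2 + 2 * (n : ℝ) ^ 2 := by linarith

/-- **many vertices of the class `i` have many outneighbours** -/
theorem caseA (hT : Cov T) (hij : i ≠ j) (hm : ∀ x, (tw T c x).card < m) (hmn : m ≤ n)
    (hne : (Ee T c i m).Nonempty) (hDE : (Ee T c i m).card ≤ (De T c i m).card) :
    10 * (n : ℝ) ^ 3 ≤ 135 * (T.card : ℝ) + 3200 * m * (n : ℝ) ^ 2 := by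
  obtain ⟨D, hD⟩ : ∃ D, D = De T c i m := ⟨_, rfl⟩
  obtain ⟨E, hE⟩ : ∃ E, E = Ee T c i m := ⟨_, rfl⟩
  have hDE' : ∀ x, x ∈ D → x ∉ E := by
    intro x hx
    rw [hE]
    rw [hD] at hx
    exact not_De_Ee hx
  obtain ⟨x0, hx0⟩ := hne
  have hm1 : (1 : ℝ) ≤ m := by
    have := hm x0
    have h1 : 1 ≤ m := by omega
    exact_mod_cast h1
  have hm0 : (0 : ℝ) ≤ m := by linarith
  have hn0 : (0 : ℝ) ≤ n := by positivity
  have hmn' : (m : ℝ) ≤ n := by exact_mod_cast hmn
  have h1 := main (cov_T' (i := i) hT hm) (c3 (De T c i m) (Ee T c i m))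
  have h2 := twoWay_T' hij hm
  have h3 := holes_T' (T := T) (c := c) hT hij hm
  have h4 : miss T c j ≤ 12 * (m : ℝ) ^ 2 * n := miss_other hT hij hm hx0
  have h5 := card_T' T D E
  have h6 := rem_ge hT.1 hDE'
  have h7 := new_le (T := T) (D := D) (E := E) (B := univ.filter fun x => c x = j) (by
    intro x hx1 hx2
    rw [mem_filter]
    refine ⟨mem_univ _, two_cl hij ?_⟩
    intro h
    rcases De_or_Ee (T := T) (m := m) h with h3 | h3
    · exact hx1 (by rw [hD]; exact h3)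
    · exact hx2 (by rw [hE]; exact h3))
  have h8 : bet T E (univ.filter fun x => c x = j) ≤ 4 * m * (n : ℝ) ^ 2 + 2 * (n : ℝ) ^ 2 := by
    rw [hE]
    exact bet_le hT hij hm
  rw [← hD, ← hE] at h1 h2 h3
  -- the missing triples of `E`
  have h9 : mis T E ≤ 3 * ∑ d ∈ D, lam T E d := by
    have hDne : D.Nonempty := by
      rw [← card_pos, hD]
      have : 0 < (Ee T c i m).card := card_pos.2 ⟨x0, hx0⟩
      omega
    obtain ⟨d, hd, hmin⟩ := exists_min_image D (fun d => lam T E d) hDne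
    have h10 := (goodman hT (hDE' d hd)).1
    have h11 : ∑ _d' ∈ D, lam T E d ≤ ∑ d' ∈ D, lam T E d' := sum_le_sum fun d' hd' => hmin d' hd'
    rw [sum_const, nsmul_eq_mul] at h11
    have h12 : (E.card : ℝ) * lam T E d ≤ D.card * lam T E d := by
      apply mul_le_mul_of_nonneg_right _ (lam_nonneg E d)
      rw [hD, hE]
      exact_mod_cast hDE
    nlinarith
  have h1' : 10 * (n : ℝ) ^ 3 + 27 * ((symmDiff (T' T D E) (triples (c3 D E)
      (ori (T' T D E) (c3 D E)))).card : ℝ) ≤ 135 * ((T' T D E).card : ℝ) +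
      162 * ((holes (T' T D E) (c3 D E)).card : ℝ) +
      342 * n * ((twoWay (T' T D E) (c3 D E)).card : ℝ) + 95 * (3 + 1) * (n : ℝ) ^ 2 := by
    exact_mod_cast h1
  have h2' : ((twoWay (T' T D E) (c3 D E)).card : ℝ) ≤ 6 * m * n := by exact_mod_cast h2
  have h5' : ((T' T D E).card : ℝ) + (rem T D E).card ≤ T.card + (new T D E).card := by
    exact_mod_cast h5
  have h13 : (0 : ℝ) ≤ ((symmDiff (T' T D E) (triples (c3 D E)
      (ori (T' T D E) (c3 D E)))).card : ℝ) := by positivity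
  have h14 : 342 * n * ((twoWay (T' T D E) (c3 D E)).card : ℝ) ≤ 342 * n * (6 * m * n) :=
    mul_le_mul_of_nonneg_left h2' (by positivity)
  have h15 : (m : ℝ) ^ 2 * n ≤ m * (n : ℝ) ^ 2 := by
    have : (m : ℝ) * (m * n) ≤ m * (n * n) :=
      mul_le_mul_of_nonneg_left (mul_le_mul_of_nonneg_right hmn' hn0) hm0
    nlinarith
  have h16 : (n : ℝ) ^ 2 ≤ m * (n : ℝ) ^ 2 := by
    have : 0 ≤ (n : ℝ) ^ 2 := by positivity
    nlinarith
  nlinarith

end Pool.Agent.Zk14.TP
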