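import Mathlib

/-!
# The polynomial inequalities
-/

set_option autoImplicit false

namespace Pool.Agent.Zk14.TP

/-- the polynomial of the second region -/
noncomputable def pol (x w : ℝ) : ℝ :=
  (3 / 22 * (1 + x) + w) ^ 3 + 3 * x * (3 / 22 * (1 + x) + w) ^ 2 + 3 * (3 / 22 * (1 + x) + w) +
    (1 + x) ^ 3 - 6667 / 10000 - 21861 / 10000 * x -
    4 / 9 * (1 + x + (3 / 22 * (1 + x) + w)) ^ 3

theorem box0 {x w : ℝ} (h1 : 0 ≤ x) (h2 : x ≤ (1 / 4)) (h3 : 0 ≤ w) (h4 : w ≤ (7 / 8)) :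
    0 ≤ pol x w := by
  obtain ⟨u, hu⟩ : ∃ u, u = (x - 0) * 4 := ⟨_, rfl⟩
  obtain ⟨v, hv⟩ : ∃ v, v = (w - 0) * (8 / 7) := ⟨_, rfl⟩
  have u0 : 0 ≤ u := by rw [hu]; apply mul_nonneg <;> linarith
  have v0 : 0 ≤ v := by rw [hv]; apply mul_nonneg <;> linarith
  have u1 : 0 ≤ 1 - u := by rw [hu]; linarith
  have v1 : 0 ≤ 1 - v := by rw [hv]; linarith
  have hx : x = 0 + (1 / 4) * u := by rw [hu]; ring
  have hw : w = 0 + (7 / 8) * v := by rw [hv]; ring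
  have key : pol x w = (11109757 / 119790000) * (u ^ 0 * (1 - u) ^ 3 * (v ^ 0 * (1 - v) ^ 3)) +
      (38479213 / 26620000) * (u ^ 0 * (1 - u) ^ 3 * (v ^ 1 * (1 - v) ^ 2)) +
      (188037477 / 106480000) * (u ^ 0 * (1 - u) ^ 3 * (v ^ 2 * (1 - v) ^ 1)) +
      (334502261 / 425920000) * (u ^ 0 * (1 - u) ^ 3 * (v ^ 3 * (1 - v) ^ 0)) +
      (3535861 / 31944000) * (u ^ 1 * (1 - u) ^ 2 * (v ^ 0 * (1 - v) ^ 3)) +
      (26225927 / 7986000) * (u ^ 1 * (1 - u) ^ 2 * (v ^ 1 * (1 - v) ^ 2)) +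
      (345671263 / 85184000) * (u ^ 1 * (1 - u) ^ 2 * (v ^ 2 * (1 - v) ^ 1)) +
      (85234023 / 42592000) * (u ^ 1 * (1 - u) ^ 2 * (v ^ 3 * (1 - v) ^ 0)) +
      (5051039 / 319440000) * (u ^ 2 * (1 - u) ^ 1 * (v ^ 0 * (1 - v) ^ 3)) +
      (3070590593 / 1277760000) * (u ^ 2 * (1 - u) ^ 1 * (v ^ 1 * (1 - v) ^ 2)) +
      (940211867 / 319440000) * (u ^ 2 * (1 - u) ^ 1 * (v ^ 2 * (1 - v) ^ 1)) +
      (2782717 / 1663750) * (u ^ 2 * (1 - u) ^ 1 * (v ^ 3 * (1 - v) ^ 0)) +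
      (16146997 / 3833280000) * (u ^ 3 * (1 - u) ^ 0 * (v ^ 0 * (1 - v) ^ 3)) +
      (372885061 / 638880000) * (u ^ 3 * (1 - u) ^ 0 * (v ^ 1 * (1 - v) ^ 2)) +
      (53534617 / 79860000) * (u ^ 3 * (1 - u) ^ 0 * (v ^ 2 * (1 - v) ^ 1)) +
      (55473871 / 119790000) * (u ^ 3 * (1 - u) ^ 0 * (v ^ 3 * (1 - v) ^ 0)) := by
    rw [hx, hw]; unfold pol; ring
  rw [key]; positivity

theorem box1 {x w : ℝ} (h1 : (1 / 4) ≤ x) (h2 : x ≤ (1 / 2)) (h3 : 0 ≤ w) (h4 : w ≤ (7 / 16)) :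
    0 ≤ pol x w := by
  obtain ⟨u, hu⟩ : ∃ u, u = (x - (1 / 4)) * 4 := ⟨_, rfl⟩
  obtain ⟨v, hv⟩ : ∃ v, v = (w - 0) * (16 / 7) := ⟨_, rfl⟩
  have u0 : 0 ≤ u := by rw [hu]; apply mul_nonneg <;> linarith
  have v0 : 0 ≤ v := by rw [hv]; apply mul_nonneg <;> linarith
  have u1 : 0 ≤ 1 - u := by rw [hu]; linarith
  have v1 : 0 ≤ 1 - v := by rw [hv]; linarith
  have hx : x = (1 / 4) + (1 / 4) * u := by rw [hu]; ring
  have hw : w = 0 + (7 / 16) * v := by rw [hv]; ring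
  have key : pol x w = (16146997 / 3833280000) * (u ^ 0 * (1 - u) ^ 3 * (v ^ 0 * (1 - v) ^ 3)) +
      (253972373 / 851840000) * (u ^ 0 * (1 - u) ^ 3 * (v ^ 1 * (1 - v) ^ 2)) +
      (788080371 / 1703680000) * (u ^ 0 * (1 - u) ^ 3 * (v ^ 2 * (1 - v) ^ 1)) +
      (733142539 / 3407360000) * (u ^ 0 * (1 - u) ^ 3 * (v ^ 3 * (1 - v) ^ 0)) +
      (2014973 / 212960000) * (u ^ 1 * (1 - u) ^ 2 * (v ^ 0 * (1 - v) ^ 3)) +
      (1440299653 / 2555520000) * (u ^ 1 * (1 - u) ^ 2 * (v ^ 1 * (1 - v) ^ 2)) +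
      (351900463 / 425920000) * (u ^ 1 * (1 - u) ^ 2 * (v ^ 2 * (1 - v) ^ 1)) +
      (1402598943 / 3407360000) * (u ^ 1 * (1 - u) ^ 2 * (v ^ 3 * (1 - v) ^ 0)) +
      (10433817 / 106480000) * (u ^ 2 * (1 - u) ^ 1 * (v ^ 0 * (1 - v) ^ 3)) +
      (51610201 / 106480000) * (u ^ 2 * (1 - u) ^ 1 * (v ^ 1 * (1 - v) ^ 2)) +
      (2521997773 / 5111040000) * (u ^ 2 * (1 - u) ^ 1 * (v ^ 2 * (1 - v) ^ 1)) +
      (839242769 / 3407360000) * (u ^ 2 * (1 - u) ^ 1 * (v ^ 3 * (1 - v) ^ 0)) +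
      (1055057 / 10648000) * (u ^ 3 * (1 - u) ^ 0 * (v ^ 0 * (1 - v) ^ 3)) +
      (10148559 / 42592000) * (u ^ 3 * (1 - u) ^ 0 * (v ^ 1 * (1 - v) ^ 2)) +
      (25357861 / 170368000) * (u ^ 3 * (1 - u) ^ 0 * (v ^ 2 * (1 - v) ^ 1)) +
      (344536457 / 6133248000) * (u ^ 3 * (1 - u) ^ 0 * (v ^ 3 * (1 - v) ^ 0)) := by
    rw [hx, hw]; unfold pol; ring
  rw [key]; positivity

theorem box2 {x w : ℝ} (h1 : (1 / 4) ≤ x) (h2 : x ≤ (1 / 2)) (h3 : (7 / 16) ≤ w) (h4 : w ≤ (7 / 8)) :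
    0 ≤ pol x w := by
  obtain ⟨u, hu⟩ : ∃ u, u = (x - (1 / 4)) * 4 := ⟨_, rfl⟩
  obtain ⟨v, hv⟩ : ∃ v, v = (w - (7 / 16)) * (16 / 7) := ⟨_, rfl⟩
  have u0 : 0 ≤ u := by rw [hu]; apply mul_nonneg <;> linarith
  have v0 : 0 ≤ v := by rw [hv]; apply mul_nonneg <;> linarith
  have u1 : 0 ≤ 1 - u := by rw [hu]; linarith
  have v1 : 0 ≤ 1 - v := by rw [hv]; linarith
  have hx : x = (1 / 4) + (1 / 4) * u := by rw [hu]; ring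
  have hw : w = (7 / 16) + (7 / 16) * v := by rw [hv]; ring
  have key : pol x w = (733142539 / 3407360000) * (u ^ 0 * (1 - u) ^ 3 * (v ^ 0 * (1 - v) ^ 3)) +
      (705673623 / 851840000) * (u ^ 0 * (1 - u) ^ 3 * (v ^ 1 * (1 - v) ^ 2)) +
      (54827453 / 53240000) * (u ^ 0 * (1 - u) ^ 3 * (v ^ 2 * (1 - v) ^ 1)) +
      (55473871 / 119790000) * (u ^ 0 * (1 - u) ^ 3 * (v ^ 3 * (1 - v) ^ 0)) +
      (1402598943 / 3407360000) * (u ^ 1 * (1 - u) ^ 2 * (v ^ 0 * (1 - v) ^ 3)) +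
      (2800194977 / 1703680000) * (u ^ 1 * (1 - u) ^ 2 * (v ^ 1 * (1 - v) ^ 2)) +
      (1404519757 / 638880000) * (u ^ 1 * (1 - u) ^ 2 * (v ^ 2 * (1 - v) ^ 1)) +
      (22081267 / 19965000) * (u ^ 1 * (1 - u) ^ 2 * (v ^ 3 * (1 - v) ^ 0)) +
      (839242769 / 3407360000) * (u ^ 2 * (1 - u) ^ 1 * (v ^ 0 * (1 - v) ^ 3)) +
      (1257796787 / 1277760000) * (u ^ 2 * (1 - u) ^ 1 * (v ^ 1 * (1 - v) ^ 2)) +
      (3747834199 / 2555520000) * (u ^ 2 * (1 - u) ^ 1 * (v ^ 2 * (1 - v) ^ 1)) +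
      (554584777 / 638880000) * (u ^ 2 * (1 - u) ^ 1 * (v ^ 3 * (1 - v) ^ 0)) +
      (344536457 / 6133248000) * (u ^ 3 * (1 - u) ^ 0 * (v ^ 0 * (1 - v) ^ 3)) +
      (192389291 / 1022208000) * (u ^ 3 * (1 - u) ^ 0 * (v ^ 1 * (1 - v) ^ 2)) +
      (162024833 / 511104000) * (u ^ 3 * (1 - u) ^ 0 * (v ^ 2 * (1 - v) ^ 1)) +
      (177478979 / 766656000) * (u ^ 3 * (1 - u) ^ 0 * (v ^ 3 * (1 - v) ^ 0)) := by
    rw [hx, hw]; unfold pol; ring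
  rw [key]; positivity

theorem region2 {x y : ℝ} (hx0 : 0 ≤ x) (hx1 : x ≤ 1 / 2) (hy1 : y ≤ 1)
    (hy : 3 * (x + 1 + y) ≤ 25 * y) :
    4 / 9 * (x + 1 + y) ^ 3 ≤ y ^ 3 + 3 * x * y ^ 2 + 3 * y + (x + 1) ^ 3 -
      (6667 / 10000 + 21861 / 10000 * x) := by
  obtain ⟨w, hw⟩ : ∃ w, w = y - 3 / 22 * (1 + x) := ⟨_, rfl⟩
  have hw0 : 0 ≤ w := by rw [hw]; linarith
  have hw1 : w ≤ 7 / 8 := by rw [hw]; linarith
  have h : 0 ≤ pol x w := by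
    rcases le_total x (1 / 4) with h1 | h1
    · exact box0 hx0 h1 hw0 hw1
    · rcases le_total w (7 / 16) with h2 | h2
      · exact box1 h1 hx1 hw0 h2
      · exact box2 h1 hx1 h2 hw1
  have hy' : y = 3 / 22 * (1 + x) + w := by rw [hw]; ring
  unfold pol at h
  rw [← hy'] at h
  have e : 1 + x + y = x + 1 + y := by ring
  rw [e] at h
  have e2 : (1 + x) ^ 3 = (x + 1) ^ 3 := by ring
  rw [e2] at h
  linarith

theorem region1 {h k : ℝ} (hh0 : 0 ≤ h) (hh1 : h ≤ 1 / 2) (hk0 : 0 ≤ k) (hk1 : k ≤ 1) :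
    0 ≤ 2 * k ^ 2 - 2 * h * k + 7 / 8 * h ^ 2 - 5 / 9 * k ^ 3 - 5 / 3 * h * k ^ 2 +
      4 / 3 * h ^ 2 * k - 5 / 9 * h ^ 3 := by
  have hq : 0 ≤ 2 * k ^ 2 - 2 * h * k + 7 / 8 * h ^ 2 := by
    nlinarith [sq_nonneg (2 * k - h), sq_nonneg h]
  rcases le_total k (2 * h) with hkh | hkh
  · -- homogenise with 2 h ≤ 1
    have h1 : 0 ≤ (1 - 2 * h) * (2 * k ^ 2 - 2 * h * k + 7 / 8 * h ^ 2) :=
      mul_nonneg (by linarith) hq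
    have h2 : 0 ≤ 2 * h * (2 * k ^ 2 - 2 * h * k + 7 / 8 * h ^ 2) - 5 / 9 * k ^ 3 -
        5 / 3 * h * k ^ 2 + 4 / 3 * h ^ 2 * k - 5 / 9 * h ^ 3 := by
      nlinarith [mul_nonneg (mul_nonneg hk0 hk0) (sub_nonneg.2 hkh), mul_nonneg hh0
        (sq_nonneg (4 * k - 3 * h)), mul_nonneg hh0 (sq_nonneg h), mul_nonneg hk0
        (sq_nonneg (k - h)), mul_nonneg (sub_nonneg.2 hkh) (sq_nonneg (k - h)),
        mul_nonneg hk0 (sq_nonneg (4 * k - 3 * h)), mul_nonneg (sub_nonneg.2 hkh)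
        (sq_nonneg (4 * k - 3 * h)), mul_nonneg hh0 (sq_nonneg k)]
    linarith
  · have h1 : 0 ≤ (1 - k) * (2 * k ^ 2 - 2 * h * k + 7 / 8 * h ^ 2) :=
      mul_nonneg (by linarith) hq
    have h2 : 0 ≤ k * (2 * k ^ 2 - 2 * h * k + 7 / 8 * h ^ 2) - 5 / 9 * k ^ 3 -
        5 / 3 * h * k ^ 2 + 4 / 3 * h ^ 2 * k - 5 / 9 * h ^ 3 := by
      obtain ⟨s, hs⟩ : ∃ s, s = k - 2 * h := ⟨_, rfl⟩
      have hs0 : 0 ≤ s := by rw [hs]; linarith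
      have hk : k = s + 2 * h := by rw [hs]; ring
      have : k * (2 * k ^ 2 - 2 * h * k + 7 / 8 * h ^ 2) - 5 / 9 * k ^ 3 -
        5 / 3 * h * k ^ 2 + 4 / 3 * h ^ 2 * k - 5 / 9 * h ^ 3 =
        13 / 9 * s ^ 3 + 5 * s ^ 2 * h + 39 / 8 * s * h ^ 2 + 3 / 4 * h ^ 3 := by
        rw [hk]; ring
      rw [this]; positivity
    linarith

theorem core1 {x y L m : ℝ} (hx0 : 0 ≤ x) (hx1 : x ≤ 1) (_hy0 : 0 ≤ y) (hy1 : y ≤ 1)
    (hy : 3 * (x + 1 + y) ≤ 25 * y) (h1 : m ≤ 3 * x * (1 - L) + 3 * L - 2 * L ^ 2)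
    (h2 : m ≤ 3 * x * (1 - L) + 2 / 3) :
    4 / 9 * (x + 1 + y) ^ 3 ≤ y ^ 3 + 3 * x * y ^ 2 + 3 * y + (x + 1) ^ 3 - m := by
  rcases le_total x (1 / 2) with hx | hx
  · have h3 : m ≤ 6667 / 10000 + 21861 / 10000 * x := by
      rcases le_total L (2713 / 10000) with hL | hL
      · have h4 : 0 ≤ (2713 / 10000 - L) * (3 * (1 - x) - 2 * (2713 / 10000 + L)) :=
          mul_nonneg (by linarith) (by linarith)
        nlinarith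
      · have h4 : 0 ≤ x * (L - 2713 / 10000) := mul_nonneg hx0 (by linarith)
        nlinarith
    have h4 := region2 hx0 hx hy1 hy
    linarith
  · have h3 : m ≤ 3 * x + 9 / 8 * (1 - x) ^ 2 := by
      nlinarith [sq_nonneg (L - 3 / 4 * (1 - x))]
    have h4 := region1 (h := 1 - x) (k := 1 - y) (by linarith) (by linarith) (by linarith)
      (by linarith)
    nlinarith

/-- both classes: the class `E` is at least as large as the other class -/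
theorem numB1 {δ e t lam M μ : ℝ} (h0 : 0 ≤ δ) (h1 : δ ≤ e) (ht0 : 0 ≤ t) (h2 : t ≤ e)
    (h3 : 3 * (δ + e + t) ≤ 25 * t) (he : 0 < e) (hM : M ≤ μ + 3 * δ * (e ^ 2 - lam))
    (hμ1 : e * μ ≤ 3 * e ^ 2 * lam - 2 * lam ^ 2) (hμ2 : 3 * μ ≤ 2 * e ^ 3) :
    4 / 9 * (δ + e + t) ^ 3 ≤ t ^ 3 + 3 * δ * t ^ 2 + 3 * t * e ^ 2 + (δ + e) ^ 3 - M := by
  obtain ⟨x, hx⟩ : ∃ x, δ = x * e := ⟨δ / e, by field_simp⟩
  obtain ⟨y, hy⟩ : ∃ y, t = y * e := ⟨t / e, by field_simp⟩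
  obtain ⟨L, hL⟩ : ∃ L, lam = L * e ^ 2 := ⟨lam / e ^ 2, by field_simp⟩
  obtain ⟨m, hm⟩ : ∃ m, M = m * e ^ 3 := ⟨M / e ^ 3, by field_simp⟩
  obtain ⟨u, hu⟩ : ∃ u, μ = u * e ^ 3 := ⟨μ / e ^ 3, by field_simp⟩
  subst hx hy hL hm hu
  have he3 : 0 < e ^ 3 := by positivity
  have he4 : 0 < e ^ 4 := by positivity
  have hx0 : 0 ≤ x := by
    by_contra h; push Not at h; nlinarith
  have hy0 : 0 ≤ y := by
    by_contra h; push Not at h; nlinarith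
  have hx1 : x ≤ 1 := by
    by_contra h; push Not at h; nlinarith
  have hy1 : y ≤ 1 := by
    by_contra h; push Not at h; nlinarith
  have hy2 : 3 * (x + 1 + y) ≤ 25 * y := by
    by_contra h; push Not at h; nlinarith
  have a1 : u ≤ 3 * L - 2 * L ^ 2 := by
    have : e ^ 4 * u ≤ e ^ 4 * (3 * L - 2 * L ^ 2) := by
      calc e ^ 4 * u = e * (u * e ^ 3) := by ring
        _ ≤ 3 * e ^ 2 * (L * e ^ 2) - 2 * (L * e ^ 2) ^ 2 := hμ1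
        _ = e ^ 4 * (3 * L - 2 * L ^ 2) := by ring
    exact le_of_mul_le_mul_left this he4
  have a2 : u ≤ 2 / 3 := by
    have : e ^ 3 * u ≤ e ^ 3 * (2 / 3) := by linarith
    exact le_of_mul_le_mul_left this he3
  have a3 : m ≤ u + 3 * x * (1 - L) := by
    have : e ^ 3 * m ≤ e ^ 3 * (u + 3 * x * (1 - L)) := by
      calc e ^ 3 * m = m * e ^ 3 := by ring
        _ ≤ u * e ^ 3 + 3 * (x * e) * (e ^ 2 - L * e ^ 2) := hM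
        _ = e ^ 3 * (u + 3 * x * (1 - L)) := by ring
    exact le_of_mul_le_mul_left this he3
  have key := core1 (x := x) (y := y) (L := L) (m := m) hx0 hx1 hy0 hy1 hy2 (by linarith)
    (by linarith)
  have := mul_le_mul_of_nonneg_left key he3.le
  calc 4 / 9 * (x * e + e + y * e) ^ 3 = e ^ 3 * (4 / 9 * (x + 1 + y) ^ 3) := by ring
    _ ≤ e ^ 3 * (y ^ 3 + 3 * x * y ^ 2 + 3 * y + (x + 1) ^ 3 - m) := this
    _ = _ := by ring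

/-- the class `E` is smaller than the other class -/
theorem numB2 {δ e t lam M μ : ℝ} (h0 : 0 ≤ δ) (h1 : δ ≤ e) (h2 : e ≤ t) (he : 0 < e)
    (hM : M ≤ μ + 3 * δ * (e ^ 2 - lam)) (hμ1 : e * μ ≤ 3 * e ^ 2 * lam - 2 * lam ^ 2) :
    4 / 9 * (δ + e + t) ^ 3 ≤ t ^ 3 + 3 * (((δ + e) * t) ^ 2 / (δ + t)) + (δ + e) ^ 3 - M := by
  have hM2 : M ≤ 3 * δ * e ^ 2 + 9 / 8 * e * (e - δ) ^ 2 := by
    have : e * M ≤ e * (3 * δ * e ^ 2 + 9 / 8 * e * (e - δ) ^ 2) := by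
      have h3 := mul_le_mul_of_nonneg_left hM he.le
      nlinarith [sq_nonneg (lam - 3 / 4 * e * (e - δ))]
    exact le_of_mul_le_mul_left this he
  obtain ⟨h, hh⟩ : ∃ h, h = e - δ := ⟨_, rfl⟩
  obtain ⟨k, hk⟩ : ∃ k, k = t - e := ⟨_, rfl⟩
  have hh0 : 0 ≤ h := by rw [hh]; linarith
  have hk0 : 0 ≤ k := by rw [hk]; linarith
  have he' : e = δ + h := by rw [hh]; ring
  have ht' : t = δ + h + k := by rw [hk, hh]; ring
  have hpos : 0 < δ + t := by linarith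
  have key : 0 ≤ (δ + t) * (t ^ 3 + (δ + e) ^ 3 - (3 * δ * e ^ 2 + 9 / 8 * e * (e - δ) ^ 2) -
      4 / 9 * (δ + e + t) ^ 3) + 3 * ((δ + e) * t) ^ 2 := by
    rw [ht', he']
    ring_nf
    positivity
  have h5 : 3 * ((δ + e) * t) ^ 2 = (δ + t) * (3 * (((δ + e) * t) ^ 2 / (δ + t))) := by
    field_simp
  rw [h5, ← mul_add] at key
  have h6 := nonneg_of_mul_nonneg_right key hpos
  linarith

end Pool.Agent.Zk14.TP
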