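import Pool.Agent.Zk14.TP.Base
import Pool.Agent.Zk14.TP.Num

/-!
# Two classes: few vertices of the class have many outneighbours
-/

set_option autoImplicit false
open Finset
open scoped Classical

namespace Pool.Agent.Zk14.TP
open Pool.Agent.Zk14.OW

variable {n m : ℕ} {T : Finset (Finset (Fin n))} {c : Fin n → Fin 2} {i j : Fin 2}

theorem sum_two (hij : i ≠ j) (f : Fin 2 → ℝ) : ∑ k, f k = f i + f j := by
  rw [Fin.sum_univ_two]
  rcases Fin.exists_fin_two.1 ⟨i, rfl⟩ with h | h <;>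
    rcases Fin.exists_fin_two.1 ⟨j, rfl⟩ with h' | h' <;> subst h <;> subst h'
  · exact absurd rfl hij
  · rfl
  · ring
  · exact absurd rfl hij

theorem size_De_Ee (T : Finset (Finset (Fin n))) (c : Fin n → Fin 2) (i : Fin 2) (m : ℕ) :
    size c i = ((De T c i m).card : ℝ) + (Ee T c i m).card := by
  rw [size_eq]
  have h : (univ.filter fun x => c x = i) = De T c i m ∪ Ee T c i m := by
    ext x
    rw [mem_filter, mem_union, mem_De, mem_Ee]
    constructor
    · rintro ⟨-, h⟩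
      rcases le_or_gt m (outN T c x).card with h1 | h1
      · exact Or.inl ⟨h, h1⟩
      · exact Or.inr ⟨h, h1⟩
    · rintro (h | h)
      · exact ⟨mem_univ _, h.1⟩
      · exact ⟨mem_univ _, h.1⟩
  rw [h, card_union_of_disjoint]
  · push_cast; ring
  · rw [disjoint_left]
    intro x hx
    exact not_De_Ee hx

theorem deg_le_size (hij : i ≠ j) {x : Fin n} (hx : c x = i) : deg T c x ≤ size c j := by
  rw [deg_eq, size_eq]
  apply Nat.cast_le.2
  apply card_le_card
  intro y hy
  rw [mem_outN] at hy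
  rw [mem_filter]
  refine ⟨mem_univ _, two_cl hij ?_⟩
  intro h
  exact hy.1 (hx.trans h.symm)

theorem badO_le_tw (hm : ∀ x, (tw T c x).card < m) : badO T c ≤ m * n := by
  unfold badO
  calc ∑ x : Fin n, ∑ y : Fin n, ind (c x ≠ c y ∧ Mate T c x y ∧ Mate T c y x) ≤
      ∑ _x : Fin n, (m : ℝ) := by
        refine sum_le_sum fun x _ => ?_
        rw [sum_ind]
        have h := hm x
        unfold tw at h
        exact_mod_cast h.le
    _ = m * n := by rw [sum_const, nsmul_eq_mul, card_univ, Fintype.card_fin]; ring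

/-- the sums of the outdegrees -/
theorem deg_sums (hij : i ≠ j) (hm : ∀ x, (tw T c x).card < m) :
    size c i * size c j - 2 * m * n ≤
      ∑ x ∈ De T c i m, deg T c x + ∑ x ∈ univ.filter (fun x => c x = j), deg T c x := by
  have h1 := sum_deg T c
  have h2 := badO_le_tw hm
  rw [sum_two hij] at h1
  have h3 : (n : ℝ) = size c i + size c j := by
    rw [← sum_size (c := c), sum_two hij]
  have h4 : ∑ v, deg T c v = ∑ x ∈ De T c i m, deg T c x + ∑ x ∈ Ee T c i m, deg T c x +
      ∑ x ∈ univ.filter (fun x => c x = j), deg T c x := by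
    rw [← sum_union, ← sum_union]
    · apply sum_congr _ fun _ _ => rfl
      ext x
      simp only [mem_univ, mem_union, mem_filter, true_iff, true_and]
      by_cases h : c x = i
      · exact Or.inl (De_or_Ee h)
      · exact Or.inr (two_cl hij h)
    · rw [disjoint_left]
      intro x hx hx'
      rw [mem_union, mem_De, mem_Ee] at hx
      rw [mem_filter] at hx'
      rcases hx with hx | hx
      · exact hij (hx.1.symm.trans hx'.2)
      · exact hij (hx.1.symm.trans hx'.2)
    · rw [disjoint_left]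
      intro x hx
      exact not_De_Ee hx
  have h5 : ∑ x ∈ Ee T c i m, deg T c x ≤ m * n := by
    calc ∑ x ∈ Ee T c i m, deg T c x ≤ ∑ _x ∈ Ee T c i m, (m : ℝ) := by
          refine sum_le_sum fun x hx => ?_
          rw [deg_eq]
          exact_mod_cast (mem_Ee.1 hx).2.le
      _ = (Ee T c i m).card * m := by rw [sum_const, nsmul_eq_mul]
      _ ≤ n * m := by
          apply mul_le_mul_of_nonneg_right _ (by positivity)
          have := card_le_univ (Ee T c i m)
          rw [Fintype.card_fin] at this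
          exact_mod_cast this
      _ = m * n := by ring
  have h6 : (n : ℝ) ^ 2 - (size c i ^ 2 + size c j ^ 2) = 2 * (size c i * size c j) := by
    rw [h3]; ring
  nlinarith

/-- the sums of the squares of the outdegrees -/
theorem sq_sums (hij : i ≠ j) (T : Finset (Finset (Fin n))) (c : Fin n → Fin 2) (m : ℕ) :
    ∑ x ∈ De T c i m, deg T c x ^ 2 + ∑ x ∈ univ.filter (fun x => c x = j), deg T c x ^ 2 ≤
      ∑ v, deg T c v ^ 2 := by
  rw [← sum_union]
  · exact sum_le_sum_of_subset_of_nonneg (subset_univ _) fun _ _ _ => sq_nonneg _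
  · rw [disjoint_left]
    intro x hx hx'
    rw [mem_De] at hx
    rw [mem_filter] at hx'
    exact hij (hx.1.symm.trans hx'.2)

theorem sq_ge (W : Finset (Fin n)) (κ : ℝ) :
    2 * κ * ∑ x ∈ W, deg T c x - κ ^ 2 * W.card ≤ ∑ x ∈ W, deg T c x ^ 2 := by
  have h : ∑ x ∈ W, (2 * κ * deg T c x - κ ^ 2) ≤ ∑ x ∈ W, deg T c x ^ 2 :=
    sum_le_sum fun x _ => by nlinarith [sq_nonneg (deg T c x - κ)]
  rw [sum_sub_distrib, ← mul_sum, sum_const, nsmul_eq_mul] at h
  linarith

/-- the general lower bound for two classes -/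
theorem two_general (hT : Cov T) (hij : i ≠ j) :
    3 * ∑ v, deg T c v ^ 2 + size c i ^ 3 + size c j ^ 3 - miss T c i - miss T c j -
      12 * (n : ℝ) ^ 2 ≤ 6 * (T.card : ℝ) := by
  have h1 := general hT c
  rw [sum_two hij] at h1
  have h2 := extS_nonneg T c
  have h3 : (n : ℝ) = size c i + size c j := by
    rw [← sum_size (c := c), sum_two hij]
  have h4 := sum_deg T c
  rw [sum_two hij] at h4
  have hb : 0 ≤ badO T c := sum_nonneg fun _ _ => sum_nonneg fun _ _ => ind_nonneg _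
  have h5 : ∑ v, (deg T c v ^ 2 - deg T c v) = ∑ v, deg T c v ^ 2 - ∑ v, deg T c v :=
    sum_sub_distrib _ _
  rw [h5] at h1
  have s1 := size_nonneg (c := c) i
  have s2 := size_nonneg (c := c) j
  have h6 : size c i ^ 2 + size c j ^ 2 ≤ (n : ℝ) ^ 2 := by rw [h3]; nlinarith
  have h7 : 2 * ∑ v, deg T c v ≤ (n : ℝ) ^ 2 := by nlinarith [sq_nonneg (size c i)]
  push_cast at h1
  nlinarith

theorem prod_le {δ e t : ℝ} (h1 : 0 ≤ δ) (h2 : 0 ≤ e) (h3 : 0 ≤ t) :
    (δ + e) * t ≤ (δ + e + t) * (δ + t) := by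
  have h4 : (δ + e + t) * (δ + t) - (δ + e) * t = (δ + e + t) * δ + t * t := by ring
  have h5 : 0 ≤ (δ + e + t) * δ + t * t := by positivity
  linarith

/-- **few vertices of the class `i` have many outneighbours** -/
theorem caseB (hT : Cov T) (hij : i ≠ j) (hm : ∀ x, (tw T c x).card < m) (hmn : m ≤ n)
    (hs : 3 * (n : ℝ) ≤ 25 * size c j) (hDE : (De T c i m).card < (Ee T c i m).card) :
    4 / 9 * (n : ℝ) ^ 3 - 50 * m * (n : ℝ) ^ 2 ≤ 6 * (T.card : ℝ) := by
  obtain ⟨D, hD⟩ : ∃ D, D = De T c i m := ⟨_, rfl⟩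
  obtain ⟨E, hE⟩ : ∃ E, E = Ee T c i m := ⟨_, rfl⟩
  obtain ⟨B, hB⟩ : ∃ B, B = univ.filter (fun x => c x = j) := ⟨_, rfl⟩
  obtain ⟨δ, hδ⟩ : ∃ δ : ℝ, δ = (D.card : ℝ) := ⟨_, rfl⟩
  obtain ⟨e, he⟩ : ∃ e : ℝ, e = (E.card : ℝ) := ⟨_, rfl⟩
  obtain ⟨t, ht⟩ : ∃ t : ℝ, t = size c j := ⟨_, rfl⟩
  have hBt : (B.card : ℝ) = t := by rw [hB, ht, size_eq]
  have hδ0 : 0 ≤ δ := by rw [hδ]; positivity
  have hδe : δ ≤ e := by rw [hδ, he, hD, hE]; exact_mod_cast hDE.le
  have he0 : 0 < e := by
    rw [he, hE]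
    have : 0 < (Ee T c i m).card := by omega
    exact_mod_cast this
  have ht0 : 0 ≤ t := by rw [ht]; exact size_nonneg j
  have hsi : size c i = δ + e := by rw [size_De_Ee T c i m, hδ, he, hD, hE]
  have hn : (n : ℝ) = δ + e + t := by
    rw [← hsi, ht, ← sum_size (c := c), sum_two hij]
  have hn0 : (0 : ℝ) ≤ n := by positivity
  have hm0 : (0 : ℝ) ≤ m := by positivity
  have hmn' : (m : ℝ) ≤ n := by exact_mod_cast hmn
  have hm1 : (1 : ℝ) ≤ m := by
    have hne : E.Nonempty := by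
      rw [← card_pos, hE]; omega
    obtain ⟨x, hx⟩ := hne
    have := hm x
    have h1 : 1 ≤ m := by omega
    exact_mod_cast h1
  -- the other class
  obtain ⟨x0, hx0⟩ : ∃ x0, x0 ∈ Ee T c i m := by
    apply Finset.card_pos.1
    omega
  have hmj : miss T c j ≤ 12 * (m : ℝ) ^ 2 * n := miss_other hT hij hm hx0
  have hmj' : miss T c j ≤ 12 * m * (n : ℝ) ^ 2 := by
    have h1 : (m : ℝ) ^ 2 * n ≤ m * n * n := by
      rw [sq]
      apply mul_le_mul_of_nonneg_right _ hn0
      exact mul_le_mul_of_nonneg_left hmn' hm0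
    linarith
  -- the degrees
  have hg := two_general (c := c) hT hij
  have hsq := sq_sums hij T c m
  have hds := deg_sums hij hm
  rw [← hD, ← hB] at hsq hds
  rw [hsi, ← ht] at hds
  obtain ⟨X, hX⟩ : ∃ X : ℝ, X = ∑ x ∈ D, deg T c x := ⟨_, rfl⟩
  obtain ⟨U, hU⟩ : ∃ U : ℝ, U = ∑ x ∈ B, deg T c x := ⟨_, rfl⟩
  rw [← hX, ← hU] at hds
  have hXle : X ≤ δ * t := by
    rw [hX, hδ]
    calc ∑ x ∈ D, deg T c x ≤ ∑ _x ∈ D, t := by
          refine sum_le_sum fun x hx => ?_
          rw [ht]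
          rw [hD] at hx
          exact deg_le_size hij (mem_De.1 hx).1
      _ = (D.card : ℝ) * t := by rw [sum_const, nsmul_eq_mul]
  -- the missing triples
  have hsplit := miss_split (i := i) hT hm
  rw [← hD, ← hE, ← he] at hsplit
  have hcaen := caen hT E
  rw [← he] at hcaen
  obtain ⟨lm, hl1, hl2⟩ : ∃ lm : ℝ, miss T c i ≤ mis T E + 3 * δ * (e ^ 2 - lm) ∧
      e * mis T E ≤ 3 * e ^ 2 * lm - 2 * lm ^ 2 := by
    rcases D.eq_empty_or_nonempty with h | h
    · refine ⟨3 / 4 * e ^ 2, ?_, ?_⟩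
      · rw [h, sum_empty] at hsplit
        rw [h, card_empty] at hδ
        rw [hδ]
        push_cast
        linarith
      · have h1 : e * (3 * mis T E) ≤ e * (2 * e ^ 3) := mul_le_mul_of_nonneg_left hcaen he0.le
        have h2 : (0 : ℝ) ≤ e ^ 4 := by positivity
        linarith
    · obtain ⟨d, hd, hmin⟩ := exists_min_image D (fun d => lam T E d) h
      have hdE : d ∉ E := by
        rw [hE]
        rw [hD] at hd
        exact not_De_Ee hd
      refine ⟨lam T E d, ?_, ?_⟩
      · have h1 : ∑ d' ∈ D, (e ^ 2 - lam T E d') ≤ ∑ _d' ∈ D, (e ^ 2 - lam T E d) :=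
          sum_le_sum fun d' hd' => by
            have := hmin d' hd'
            linarith
        rw [sum_const, nsmul_eq_mul, ← hδ] at h1
        linarith
      · have := (goodman hT hdE).2
        rw [← he] at this
        exact this
  have hs' : 3 * (δ + e + t) ≤ 25 * t := by rw [← hn, ht]; exact hs
  rcases le_total t e with hte | hte
  · have key := numB1 hδ0 hδe ht0 hte hs' he0 hl1 hl2 hcaen
    have q1 := sq_ge (T := T) (c := c) D t
    have q2 := sq_ge (T := T) (c := c) B e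
    rw [← hX, ← hδ] at q1
    rw [← hU, hBt] at q2
    rw [← hn] at key
    have q3 : 0 ≤ (e - t) * (δ * t - X) := mul_nonneg (by linarith) (by linarith)
    have q4 : 0 ≤ e * (X + U - ((δ + e) * t - 2 * m * n)) := mul_nonneg he0.le (by linarith)
    have q5 : e * (m * n) ≤ m * n ^ 2 := by
      have h1 : e ≤ n := by rw [hn]; linarith
      have h2 : 0 ≤ (m : ℝ) * n := by positivity
      calc e * (m * n) ≤ n * (m * n) := mul_le_mul_of_nonneg_right h1 h2
        _ = m * n ^ 2 := by ring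
    have q6 : (n : ℝ) ^ 2 ≤ m * n ^ 2 := le_mul_of_one_le_left (by positivity) hm1
    have q7 : 0 ≤ (m : ℝ) * n ^ 2 := by positivity
    rw [hsi, ← ht] at hg
    linarith
  · have hpos : 0 < δ + t := by linarith
    have key := numB2 hδ0 hδe hte he0 hl1 hl2
    obtain ⟨κ, hκ⟩ : ∃ κ : ℝ, κ = (δ + e) * t / (δ + t) := ⟨_, rfl⟩
    have q1 := sq_ge (T := T) (c := c) D κ
    have q2 := sq_ge (T := T) (c := c) B κ
    rw [← hX, ← hδ] at q1
    rw [← hU, hBt] at q2
    rw [← hn] at key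
    have hκ0 : 0 ≤ κ := by rw [hκ]; positivity
    have hκt : κ ≤ n := by
      rw [hκ, div_le_iff₀ hpos, hn]
      exact prod_le hδ0 he0.le ht0
    have hκ1 : κ * (δ + t) = (δ + e) * t := by rw [hκ]; field_simp
    have hκ2 : ((δ + e) * t) ^ 2 / (δ + t) = κ * ((δ + e) * t) := by rw [hκ]; field_simp
    have hκ3 : κ ^ 2 * (δ + t) = κ * ((δ + e) * t) := by rw [sq, mul_assoc, hκ1]
    rw [hκ2] at key
    have q4 : 0 ≤ κ * (X + U - ((δ + e) * t - 2 * m * n)) := mul_nonneg hκ0 (by linarith)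
    have q5 : κ * (m * n) ≤ m * n ^ 2 := by
      have h2 : 0 ≤ (m : ℝ) * n := by positivity
      calc κ * (m * n) ≤ n * (m * n) := mul_le_mul_of_nonneg_right hκt h2
        _ = m * n ^ 2 := by ring
    have q6 : (n : ℝ) ^ 2 ≤ m * n ^ 2 := le_mul_of_one_le_left (by positivity) hm1
    have q7 : 0 ≤ (m : ℝ) * n ^ 2 := by positivity
    rw [hsi, ← ht] at hg
    linarith

end Pool.Agent.Zk14.TP
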