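import Pool.Agent.Zk14.OW.Big

/-!
# Coverings: two inequalities for the missing triples inside a set of vertices
-/

set_option autoImplicit false
open Finset
open scoped Classical

namespace Pool.Agent.Zk14.TP
open Pool.Agent.Zk14.OW

variable {n : ℕ} {T : Finset (Finset (Fin n))}

/-- the indicator of a missing triple -/
noncomputable def chi (T : Finset (Finset (Fin n))) (x y z : Fin n) : ℝ :=
  ind (x ≠ y ∧ x ≠ z ∧ y ≠ z ∧ ({x, y, z} : Finset (Fin n)) ∉ T)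

/-- the ordered triples of different elements of `W` which are not in `T` -/
noncomputable def mis (T : Finset (Finset (Fin n))) (W : Finset (Fin n)) : ℝ :=
  ∑ x ∈ W, ∑ y ∈ W, ∑ z ∈ W, chi T x y z

theorem chi_nonneg (x y z : Fin n) : 0 ≤ chi T x y z := ind_nonneg _

theorem chi_le (x y z : Fin n) : chi T x y z ≤ 1 := ind_le_one _

theorem chi_swap (x y z : Fin n) : chi T x z y = chi T x y z := by
  unfold chi
  apply ind_congr
  have h : ({x, z, y} : Finset (Fin n)) = {x, y, z} := by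
    rw [pair_comm]
  rw [h]
  constructor
  · rintro ⟨h1, h2, h3, h4⟩; exact ⟨h2, h1, Ne.symm h3, h4⟩
  · rintro ⟨h1, h2, h3, h4⟩; exact ⟨h2, h1, Ne.symm h3, h4⟩

theorem chi_rot (x y z : Fin n) : chi T y z x = chi T x y z := by
  unfold chi
  apply ind_congr
  have h : ({y, z, x} : Finset (Fin n)) = {x, y, z} := by
    ext w; simp only [mem_insert, mem_singleton]; tauto
  rw [h]
  constructor
  · rintro ⟨h1, h2, h3, h4⟩; exact ⟨Ne.symm h2, Ne.symm h3, h1, h4⟩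
  · rintro ⟨h1, h2, h3, h4⟩; exact ⟨h3, Ne.symm h1, Ne.symm h2, h4⟩

theorem mis_nonneg (W : Finset (Fin n)) : 0 ≤ mis T W :=
  sum_nonneg fun _ _ => sum_nonneg fun _ _ => sum_nonneg fun _ _ => chi_nonneg _ _ _

/-- four vertices: not all of the triples are missing -/
theorem chi_three (hT : Cov T) {x y z : Fin n} (h : chi T x y z = 1) (w : Fin n) :
    chi T x y w + chi T x z w + chi T y z w ≤ 2 := by
  have hx : x ≠ y ∧ x ≠ z ∧ y ≠ z ∧ ({x, y, z} : Finset (Fin n)) ∉ T := by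
    by_contra h'
    unfold chi at h
    rw [ind_false h'] at h
    norm_num at h
  obtain ⟨hxy, hxz, hyz, hm⟩ := hx
  have h1 := chi_le (T := T) x y w
  have h2 := chi_le (T := T) x z w
  have h3 := chi_le (T := T) y z w
  by_cases e1 : ({x, y, w} : Finset (Fin n)) ∈ T
  · have : chi T x y w = 0 := ind_false fun h => h.2.2.2 e1
    linarith
  by_cases e2 : ({x, z, w} : Finset (Fin n)) ∈ T
  · have : chi T x z w = 0 := ind_false fun h => h.2.2.2 e2
    linarith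
  by_cases e3 : ({y, z, w} : Finset (Fin n)) ∈ T
  · have : chi T y z w = 0 := ind_false fun h => h.2.2.2 e3
    linarith
  by_cases f1 : x = w
  · have : chi T x y w = 0 := ind_false fun h => h.2.1 f1
    linarith
  by_cases f2 : y = w
  · have : chi T x y w = 0 := ind_false fun h => h.2.2.1 f2
    linarith
  by_cases f3 : z = w
  · have : chi T x z w = 0 := ind_false fun h => h.2.2.1 f3
    linarith
  exfalso
  exact not_uncovered hT hxy hxz f1 hyz f2 f3 hm e1 e2 e3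

/-- de Caen's inequality inside `W` -/
theorem caen (hT : Cov T) (W : Finset (Fin n)) : 3 * mis T W ≤ 2 * (W.card : ℝ) ^ 3 := by
  obtain ⟨d, hd⟩ : ∃ d : Fin n → Fin n → ℝ, d = fun x y => ∑ z ∈ W, chi T x y z := ⟨_, rfl⟩
  obtain ⟨w, hw⟩ : ∃ w : ℝ, w = (W.card : ℝ) := ⟨_, rfl⟩
  have hw0 : 0 ≤ w := by rw [hw]; positivity
  have hM : mis T W = ∑ x ∈ W, ∑ y ∈ W, d x y := by rw [hd]; rfl
  have hM0 := mis_nonneg (T := T) W
  have key : ∑ x ∈ W, ∑ y ∈ W, ∑ z ∈ W, chi T x y z * (d x y + d x z + d y z) ≤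
      2 * w * mis T W := by
    unfold mis
    rw [mul_sum]
    refine sum_le_sum fun x _ => ?_
    rw [mul_sum]
    refine sum_le_sum fun y _ => ?_
    rw [mul_sum]
    refine sum_le_sum fun z _ => ?_
    rcases (chi_nonneg (T := T) x y z).eq_or_lt with h | h
    · rw [← h]; simp
    · have h1 : chi T x y z = 1 := by
        unfold chi at h ⊢
        by_cases h' : x ≠ y ∧ x ≠ z ∧ y ≠ z ∧ ({x, y, z} : Finset (Fin n)) ∉ T
        · exact ind_true h'
        · rw [ind_false h'] at h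
          exact absurd h (lt_irrefl _)
      rw [h1, one_mul, mul_one]
      have h2 : d x y + d x z + d y z = ∑ v ∈ W, (chi T x y v + chi T x z v + chi T y z v) := by
        rw [hd, sum_add_distrib, sum_add_distrib]
      rw [h2]
      calc ∑ v ∈ W, (chi T x y v + chi T x z v + chi T y z v) ≤ ∑ _v ∈ W, (2 : ℝ) :=
            sum_le_sum fun v _ => chi_three hT h1 v
        _ = 2 * w := by rw [sum_const, nsmul_eq_mul, hw]; ring
  have e1 : ∑ x ∈ W, ∑ y ∈ W, ∑ z ∈ W, chi T x y z * d x y = ∑ x ∈ W, ∑ y ∈ W, d x y ^ 2 := by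
    refine sum_congr rfl fun x _ => sum_congr rfl fun y _ => ?_
    rw [← sum_mul, sq, hd]
  have e2 : ∑ x ∈ W, ∑ y ∈ W, ∑ z ∈ W, chi T x y z * d x z = ∑ x ∈ W, ∑ y ∈ W, d x y ^ 2 := by
    refine sum_congr rfl fun x _ => ?_
    rw [sum_comm]
    refine sum_congr rfl fun z _ => ?_
    rw [← sum_mul, sq]
    congr 1
    rw [hd]
    exact sum_congr rfl fun y _ => chi_swap x z y
  have e3 : ∑ x ∈ W, ∑ y ∈ W, ∑ z ∈ W, chi T x y z * d y z = ∑ x ∈ W, ∑ y ∈ W, d x y ^ 2 := by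
    rw [sum_comm]
    refine sum_congr rfl fun y _ => ?_
    rw [sum_comm]
    refine sum_congr rfl fun z _ => ?_
    rw [← sum_mul, sq]
    congr 1
    rw [hd]
    exact sum_congr rfl fun x _ => (chi_rot x y z).symm
  have e4 : ∑ x ∈ W, ∑ y ∈ W, ∑ z ∈ W, chi T x y z * (d x y + d x z + d y z) =
      3 * ∑ x ∈ W, ∑ y ∈ W, d x y ^ 2 := by
    simp only [mul_add, sum_add_distrib]
    rw [e1, e2, e3]
    ring
  have e5 : mis T W ^ 2 ≤ w ^ 2 * ∑ x ∈ W, ∑ y ∈ W, d x y ^ 2 := by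
    rw [hM, ← sum_product', ← sum_product']
    have h := sq_sum_le_card_mul_sum_sq (s := W ×ˢ W) (f := fun p : Fin n × Fin n => d p.1 p.2)
    rw [card_product] at h
    push_cast at h
    rw [hw, sq (W.card : ℝ)]
    exact h
  rcases hM0.eq_or_lt with h0 | h0
  · rw [← h0, mul_zero]; positivity
  · have h6 : 3 * mis T W ^ 2 ≤ w ^ 2 * (2 * w * mis T W) := by
      calc 3 * mis T W ^ 2 ≤ 3 * (w ^ 2 * ∑ x ∈ W, ∑ y ∈ W, d x y ^ 2) := by linarith
        _ = w ^ 2 * (3 * ∑ x ∈ W, ∑ y ∈ W, d x y ^ 2) := by ring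
        _ ≤ w ^ 2 * (2 * w * mis T W) := by
            apply mul_le_mul_of_nonneg_left _ (sq_nonneg w)
            rw [← e4]
            exact key
    rw [← hw]
    have h7 : mis T W * (3 * mis T W) ≤ mis T W * (2 * w ^ 3) := by nlinarith
    exact le_of_mul_le_mul_left h7 h0

/-- the ordered pairs of different elements of `E` which form a member of `T` with `d` -/
noncomputable def lam (T : Finset (Finset (Fin n))) (E : Finset (Fin n)) (d : Fin n) : ℝ :=
  ∑ x ∈ E, ∑ y ∈ E, ind (x ≠ y ∧ ({d, x, y} : Finset (Fin n)) ∈ T)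

theorem lam_nonneg (E : Finset (Fin n)) (d : Fin n) : 0 ≤ lam T E d :=
  sum_nonneg fun _ _ => sum_nonneg fun _ _ => ind_nonneg _

theorem lam_le (E : Finset (Fin n)) (d : Fin n) : lam T E d ≤ (E.card : ℝ) ^ 2 := by
  unfold lam
  calc ∑ x ∈ E, ∑ y ∈ E, ind (x ≠ y ∧ ({d, x, y} : Finset (Fin n)) ∈ T) ≤
      ∑ _x ∈ E, ∑ _y ∈ E, (1 : ℝ) := sum_le_sum fun _ _ => sum_le_sum fun _ _ => ind_le_one _
    _ = (E.card : ℝ) ^ 2 := by
        simp only [sum_const, nsmul_eq_mul]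
        ring

/-- **Goodman's inequality**: the missing triples inside `E` are not independent in the link graph
of `d` -/
theorem goodman (hT : Cov T) {E : Finset (Fin n)} {d : Fin n} (hd : d ∉ E) :
    mis T E ≤ 3 * E.card * lam T E d ∧
      (E.card : ℝ) * mis T E ≤ 3 * (E.card : ℝ) ^ 2 * lam T E d - 2 * lam T E d ^ 2 := by
  obtain ⟨a, ha⟩ : ∃ a : Fin n → Fin n → ℝ, a = fun x y =>
    ind (x ≠ y ∧ ({d, x, y} : Finset (Fin n)) ∈ T) := ⟨_, rfl⟩
  obtain ⟨e, he⟩ : ∃ e : ℝ, e = (E.card : ℝ) := ⟨_, rfl⟩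
  have he0 : 0 ≤ e := by rw [he]; positivity
  have hsym : ∀ x y, a x y = a y x := by
    intro x y
    rw [ha]
    apply ind_congr
    have h : ({d, x, y} : Finset (Fin n)) = {d, y, x} := by rw [pair_comm]
    rw [h]
    exact ⟨fun h => ⟨Ne.symm h.1, h.2⟩, fun h => ⟨Ne.symm h.1, h.2⟩⟩
  have h01 : ∀ x y, a x y = 0 ∨ a x y = 1 := by
    intro x y
    rw [ha]
    by_cases h : x ≠ y ∧ ({d, x, y} : Finset (Fin n)) ∈ T
    · exact Or.inr (ind_true h)
    · exact Or.inl (ind_false h)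
  have hL : lam T E d = ∑ x ∈ E, ∑ y ∈ E, a x y := by rw [ha]; rfl
  obtain ⟨S, hS⟩ : ∃ S : ℝ, S = ∑ x ∈ E, (∑ y ∈ E, a x y) ^ 2 := ⟨_, rfl⟩
  have hS0 : 0 ≤ S := by rw [hS]; exact sum_nonneg fun _ _ => sq_nonneg _
  have hpt : mis T E ≤ ∑ x ∈ E, ∑ y ∈ E, ∑ z ∈ E, (a x y + a x z + a y z -
      2 / 3 * (a x y * a x z + a x y * a y z + a x z * a y z)) := by
    refine sum_le_sum fun x hx => sum_le_sum fun y hy => sum_le_sum fun z hz => ?_
    have h0 : 0 ≤ a x y + a x z + a y z -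
        2 / 3 * (a x y * a x z + a x y * a y z + a x z * a y z) := by
      rcases h01 x y with h1 | h1 <;> rcases h01 x z with h2 | h2 <;>
        rcases h01 y z with h3 | h3 <;> rw [h1, h2, h3] <;> norm_num
    by_cases h : x ≠ y ∧ x ≠ z ∧ y ≠ z ∧ ({x, y, z} : Finset (Fin n)) ∉ T
    · unfold chi
      rw [ind_true h]
      have h4 : a x y = 1 ∨ a x z = 1 ∨ a y z = 1 := by
        by_contra hc
        push Not at hc
        obtain ⟨c1, c2, c3⟩ := hc
        have g : ∀ u v, u ≠ v → a u v ≠ 1 → ({d, u, v} : Finset (Fin n)) ∉ T := by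
          intro u v huv h1 h2
          apply h1
          rw [ha]
          exact ind_true ⟨huv, h2⟩
        have hdx : d ≠ x := fun h' => hd (by rw [h']; exact hx)
        have hdy : d ≠ y := fun h' => hd (by rw [h']; exact hy)
        have hdz : d ≠ z := fun h' => hd (by rw [h']; exact hz)
        exact not_uncovered hT hdx hdy hdz h.1 h.2.1 h.2.2.1 (g x y h.1 c1) (g x z h.2.1 c2)
          (g y z h.2.2.1 c3) h.2.2.2
      rcases h01 x y with h1 | h1 <;> rcases h01 x z with h2 | h2 <;>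
        rcases h01 y z with h3 | h3 <;> rw [h1, h2, h3] at h4 ⊢ <;>
        first | (exfalso; norm_num at h4; done) | norm_num
    · unfold chi
      rw [ind_false h]
      exact h0
  have s1 : ∑ x ∈ E, ∑ y ∈ E, ∑ _z ∈ E, a x y = e * lam T E d := by
    rw [hL, mul_sum]
    refine sum_congr rfl fun x _ => ?_
    rw [mul_sum]
    refine sum_congr rfl fun y _ => ?_
    rw [sum_const, nsmul_eq_mul, he]
  have s2 : ∑ x ∈ E, ∑ _y ∈ E, ∑ z ∈ E, a x z = e * lam T E d := by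
    rw [hL, mul_sum]
    refine sum_congr rfl fun x _ => ?_
    rw [sum_const, nsmul_eq_mul, he]
  have s3 : ∑ _x ∈ E, ∑ y ∈ E, ∑ z ∈ E, a y z = e * lam T E d := by
    rw [hL, sum_const, nsmul_eq_mul, he]
  have t1 : ∑ x ∈ E, ∑ y ∈ E, ∑ z ∈ E, a x y * a x z = S := by
    rw [hS]
    refine sum_congr rfl fun x _ => ?_
    rw [sq, sum_mul_sum]
  have t2 : ∑ x ∈ E, ∑ y ∈ E, ∑ z ∈ E, a x y * a y z = S := by
    rw [hS, sum_comm]
    refine sum_congr rfl fun y _ => ?_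
    rw [sq, sum_mul_sum]
    exact sum_congr rfl fun x _ => sum_congr rfl fun z _ => by rw [hsym x y]
  have t3 : ∑ x ∈ E, ∑ y ∈ E, ∑ z ∈ E, a x z * a y z = S := by
    have : ∑ x ∈ E, ∑ y ∈ E, ∑ z ∈ E, a x z * a y z =
        ∑ z ∈ E, ∑ x ∈ E, ∑ y ∈ E, a x z * a y z := by
      calc ∑ x ∈ E, ∑ y ∈ E, ∑ z ∈ E, a x z * a y z =
          ∑ x ∈ E, ∑ z ∈ E, ∑ y ∈ E, a x z * a y z := sum_congr rfl fun x _ => sum_comm
        _ = ∑ z ∈ E, ∑ x ∈ E, ∑ y ∈ E, a x z * a y z := sum_comm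
    rw [this, hS]
    refine sum_congr rfl fun z _ => ?_
    rw [sq, sum_mul_sum]
    exact sum_congr rfl fun x _ => sum_congr rfl fun y _ => by rw [hsym x z, hsym y z]
  have hsum : ∑ x ∈ E, ∑ y ∈ E, ∑ z ∈ E, (a x y + a x z + a y z -
      2 / 3 * (a x y * a x z + a x y * a y z + a x z * a y z)) =
      3 * e * lam T E d - 2 * S := by
    have h : ∑ x ∈ E, ∑ y ∈ E, ∑ z ∈ E, (a x y + a x z + a y z -
        2 / 3 * (a x y * a x z + a x y * a y z + a x z * a y z)) =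
        (∑ x ∈ E, ∑ y ∈ E, ∑ _z ∈ E, a x y + ∑ x ∈ E, ∑ _y ∈ E, ∑ z ∈ E, a x z +
          ∑ _x ∈ E, ∑ y ∈ E, ∑ z ∈ E, a y z) -
        (∑ x ∈ E, ∑ y ∈ E, ∑ z ∈ E, 2 / 3 * (a x y * a x z) +
          ∑ x ∈ E, ∑ y ∈ E, ∑ z ∈ E, 2 / 3 * (a x y * a y z) +
          ∑ x ∈ E, ∑ y ∈ E, ∑ z ∈ E, 2 / 3 * (a x z * a y z)) := by
      simp only [sum_sub_distrib, sum_add_distrib, mul_add]
    have hc : ∀ f : Fin n → Fin n → Fin n → ℝ, ∑ x ∈ E, ∑ y ∈ E, ∑ z ∈ E, 2 / 3 * f x y z =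
        2 / 3 * ∑ x ∈ E, ∑ y ∈ E, ∑ z ∈ E, f x y z := by
      intro f
      simp only [mul_sum]
    rw [h, s1, s2, s3, hc (fun x y z => a x y * a x z), hc (fun x y z => a x y * a y z),
      hc (fun x y z => a x z * a y z), t1, t2, t3]
    ring
  rw [hsum] at hpt
  have hC : lam T E d ^ 2 ≤ e * S := by
    rw [hL, hS, he]
    exact sq_sum_le_card_mul_sum_sq
  rw [← he]
  refine ⟨by linarith, ?_⟩
  have := mul_le_mul_of_nonneg_left hpt he0
  nlinarith

end Pool.Agent.Zk14.TP
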