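import Pool.Agent.Zk14.TP.Main

/-!
# Few two-way pairs: deletion of the vertices with many two-way pairs
-/

set_option autoImplicit false
open Finset
open scoped Classical

namespace Pool.Agent.Zk14.TP
open Pool.Agent.Zk14.OW Pool.Agent.Zk14.OneWay

variable {n m k : ℕ} {T : Finset (Finset (Fin n))} {c : Fin n → Fin 2}

/-- the restriction of the covering to the image of `f` -/
noncomputable def pull (T : Finset (Finset (Fin n))) (f : Fin k ↪ Fin n) :
    Finset (Finset (Fin k)) := univ.filter fun e => e.map f ∈ T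

theorem mem_pull {f : Fin k ↪ Fin n} {e : Finset (Fin k)} : e ∈ pull T f ↔ e.map f ∈ T := by
  unfold pull
  simp

theorem pull_cov (hT : Cov T) (f : Fin k ↪ Fin n) : Cov (pull T f) := by
  refine ⟨fun e he => ?_, fun S hS => ?_⟩
  · have := hT.1 _ (mem_pull.1 he)
    rwa [card_map] at this
  · obtain ⟨e, he, hes⟩ := hT.2 (S.map f) (by rw [card_map, hS])
    obtain ⟨u, hu, rfl⟩ := subset_map_iff.1 hes
    exact ⟨u, mem_pull.2 he, hu⟩

theorem pull_card (T : Finset (Finset (Fin n))) (f : Fin k ↪ Fin n) :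
    (pull T f).card ≤ T.card := by
  apply card_le_card_of_injOn (fun e => e.map f)
  · intro e he
    exact mem_pull.1 he
  · intro e _ e' _ h
    exact map_injective f h

theorem pull_mate {f : Fin k ↪ Fin n} {x y : Fin k} (h : Mate (pull T f) (fun v => c (f v)) x y) :
    Mate T c (f x) (f y) := by
  obtain ⟨z, hz, hc, hm⟩ := h
  refine ⟨f z, fun h => hz (f.injective h), hc, ?_⟩
  have := mem_pull.1 hm
  simpa only [map_insert, map_singleton] using this

theorem pull_tw (f : Fin k ↪ Fin n) (x : Fin k) :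
    (tw (pull T f) (fun v => c (f v)) x).card ≤ (tw T c (f x)).card := by
  apply card_le_card_of_injOn (fun y => f y)
  · intro y hy
    have hy' : y ∈ tw (pull T f) (fun v => c (f v)) x := hy
    unfold tw at hy'
    rw [mem_filter] at hy'
    show f y ∈ tw T c (f x)
    unfold tw
    rw [mem_filter]
    exact ⟨mem_univ _, hy'.2.1, pull_mate hy'.2.2.1, pull_mate hy'.2.2.2⟩
  · intro a _ b _ h
    exact f.injective h

theorem pull_size (f : Fin k ↪ Fin n) (Z : Finset (Fin n)) (hf : ∀ x, x ∉ Z → ∃ y, f y = x)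
    (l : Fin 2) : size c l ≤ size (fun v => c (f v)) l + Z.card := by
  rw [size_eq, size_eq]
  have h1 : (univ.filter fun x => c x = l) ⊆
      (univ.filter fun v => c (f v) = l).image f ∪ Z := by
    intro x hx
    rw [mem_filter] at hx
    rw [mem_union, mem_image]
    by_cases h : x ∈ Z
    · exact Or.inr h
    · left
      obtain ⟨y, rfl⟩ := hf x h
      exact ⟨y, by rw [mem_filter]; exact ⟨mem_univ _, hx.2⟩, rfl⟩
  have h2 := card_le_card h1
  have h3 := card_union_le ((univ.filter fun v => c (f v) = l).image f) Z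
  have h4 : ((univ.filter fun v => c (f v) = l).image f).card ≤
      (univ.filter fun v => c (f v) = l).card := card_image_le
  have h5 : (univ.filter fun x => c x = l).card ≤
      (univ.filter fun v => c (f v) = l).card + Z.card := by omega
  exact_mod_cast h5

theorem sum_tw (T : Finset (Finset (Fin n))) (c : Fin n → Fin 2) :
    ∑ x, ((tw T c x).card : ℝ) ≤ 2 * ((twoWay T c).card : ℝ) := by
  have h := badO_le T c
  have h2 : badO T c = ∑ x, ((tw T c x).card : ℝ) := by
    unfold badO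
    refine sum_congr rfl fun x _ => ?_
    rw [sum_ind]
    rfl
  linarith

/-- **the bound** for all coverings and all partitions into two classes -/
theorem final (hT : Cov T) (hm : 1 ≤ m) (hs : ∀ l, (n : ℝ) ≤ 8 * size c l) :
    2 * m * (n : ℝ) ^ 3 ≤ 27 * m * (T.card : ℝ) +
      800 * ((m : ℝ) ^ 2 + (twoWay T c).card) * (n : ℝ) ^ 2 := by
  obtain ⟨Z, hZ⟩ : ∃ Z : Finset (Fin n), Z = univ.filter fun x => m ≤ (tw T c x).card := ⟨_, rfl⟩
  obtain ⟨z, hz⟩ : ∃ z : ℝ, z = (Z.card : ℝ) := ⟨_, rfl⟩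
  obtain ⟨b, hb⟩ : ∃ b : ℝ, b = ((twoWay T c).card : ℝ) := ⟨_, rfl⟩
  have hZm : ∀ x, m ≤ (tw T c x).card → x ∈ Z := by
    intro x hx
    rw [hZ, mem_filter]
    exact ⟨mem_univ _, hx⟩
  have hz0 : 0 ≤ z := by rw [hz]; positivity
  have hb0 : 0 ≤ b := by rw [hb]; positivity
  have hn0 : (0 : ℝ) ≤ n := by positivity
  have hm1 : (1 : ℝ) ≤ m := by exact_mod_cast hm
  have hT0 : (0 : ℝ) ≤ T.card := by positivity
  have hzb : z * m ≤ 2 * b := by
    calc z * m = ∑ _x ∈ Z, (m : ℝ) := by rw [sum_const, nsmul_eq_mul, hz]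
      _ ≤ ∑ x ∈ Z, ((tw T c x).card : ℝ) := by
          refine sum_le_sum fun x hx => ?_
          rw [hZ, mem_filter] at hx
          exact_mod_cast hx.2
      _ ≤ ∑ x, ((tw T c x).card : ℝ) :=
          sum_le_sum_of_subset_of_nonneg (subset_univ _) fun _ _ _ => by positivity
      _ ≤ 2 * b := by rw [hb]; exact sum_tw T c
  rw [← hb]
  have hn2 : (0 : ℝ) ≤ (n : ℝ) ^ 2 := by positivity
  rcases lt_or_ge (n : ℝ) (200 * z) with h | h
  · have h1 : 2 * m * (n : ℝ) ^ 3 ≤ 2 * m * (200 * z * (n : ℝ) ^ 2) := by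
      apply mul_le_mul_of_nonneg_left _ (by positivity)
      calc (n : ℝ) ^ 3 = n * (n : ℝ) ^ 2 := by ring
        _ ≤ 200 * z * (n : ℝ) ^ 2 := mul_le_mul_of_nonneg_right h.le hn2
    have h2 : z * m * (n : ℝ) ^ 2 ≤ 2 * b * (n : ℝ) ^ 2 := mul_le_mul_of_nonneg_right hzb hn2
    have h3 : 0 ≤ 27 * m * (T.card : ℝ) := by positivity
    have h4 : 0 ≤ (m : ℝ) ^ 2 * (n : ℝ) ^ 2 := by positivity
    nlinarith
  · obtain ⟨f, hf⟩ : ∃ f : Fin (Zᶜ).card ↪ Fin n, f = ((Zᶜ).orderEmbOfFin rfl).toEmbedding :=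
      ⟨_, rfl⟩
    have hfr : ∀ x, x ∈ Zᶜ ↔ ∃ y, f y = x := by
      intro x
      have h1 : Set.range ((Zᶜ).orderEmbOfFin rfl) = ((Zᶜ : Finset (Fin n)) : Set (Fin n)) :=
        range_orderEmbOfFin _ rfl
      rw [← mem_coe, ← h1, Set.mem_range, hf]
      rfl
    have hfZ : ∀ y, f y ∉ Z := by
      intro y h1
      exact mem_compl.1 ((hfr (f y)).2 ⟨y, rfl⟩) h1
    have hk : ((Zᶜ).card : ℝ) = n - z := by
      have h1 := card_compl_add_card Z
      rw [Fintype.card_fin] at h1
      have : ((Zᶜ).card : ℝ) + Z.card = n := by exact_mod_cast h1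
      rw [hz]; linarith
    have h1 : ∀ l, size c l ≤ size (fun v => c (f v)) l + z := by
      intro l
      rw [hz]
      exact pull_size f Z (fun x hx => (hfr x).1 (mem_compl.2 hx)) l
    have h2 : ∀ y, (tw (pull T f) (fun v => c (f v)) y).card < m := by
      intro y
      have h3 := pull_tw (T := T) (c := c) f y
      have h4 : (tw T c (f y)).card < m := by
        by_contra h5
        exact hfZ y (hZm _ (not_lt.1 h5))
      omega
    have h3 : ∀ l, 3 * ((Zᶜ).card : ℝ) ≤ 25 * size (fun v => c (f v)) l := by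
      intro l
      have h4 := h1 l
      have h5 := hs l
      rw [hk]
      linarith
    have h4 := core (pull_cov hT f) h2 h3
    rw [hk] at h4
    have h5 : ((pull T f).card : ℝ) ≤ T.card := by exact_mod_cast pull_card T f
    have hzn : z ≤ n := by linarith
    have h6 : (n : ℝ) ^ 3 - 3 * z * (n : ℝ) ^ 2 ≤ (n - z) ^ 3 := by
      have e : (n - z) ^ 3 - ((n : ℝ) ^ 3 - 3 * z * (n : ℝ) ^ 2) = z ^ 2 * (3 * n - z) := by ring
      have : 0 ≤ z ^ 2 * (3 * n - z) := mul_nonneg (sq_nonneg z) (by linarith)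
      linarith
    have h7 : (n - z) ^ 2 ≤ (n : ℝ) ^ 2 := by
      apply pow_le_pow_left₀ (by linarith)
      linarith
    have h8 : 640 * (m : ℝ) * (n - z) ^ 2 ≤ 640 * m * (n : ℝ) ^ 2 :=
      mul_le_mul_of_nonneg_left h7 (by positivity)
    have h9 : 2 * (n : ℝ) ^ 3 ≤ 27 * (T.card : ℝ) + 640 * m * (n : ℝ) ^ 2 +
        6 * z * (n : ℝ) ^ 2 := by linarith
    have h10 := mul_le_mul_of_nonneg_left h9 (show (0 : ℝ) ≤ m by positivity)
    have h11 : z * m * (n : ℝ) ^ 2 ≤ 2 * b * (n : ℝ) ^ 2 := mul_le_mul_of_nonneg_right hzb hn2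
    have h12 : 0 ≤ (m : ℝ) ^ 2 * (n : ℝ) ^ 2 := by positivity
    have h13 : 0 ≤ b * (n : ℝ) ^ 2 := by positivity
    nlinarith

end Pool.Agent.Zk14.TP
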