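import Pool.Agent.Zk14.TP.CaseA2
import Pool.Agent.Zk14.TP.CaseB

/-!
# Turán's bound for coverings with a one-way partition into two classes
-/

set_option autoImplicit false
open Finset
open scoped Classical

namespace Pool.Agent.Zk14.TP
open Pool.Agent.Zk14.OW Pool.Agent.Zk14.OneWay

variable {n m : ℕ} {T : Finset (Finset (Fin n))} {c : Fin n → Fin 2} {i j : Fin 2}

theorem one_class (hT : Cov T) (hij : i ≠ j) (hm : ∀ x, (tw T c x).card < m) (hmn : m ≤ n)
    (hs : 3 * (n : ℝ) ≤ 25 * size c j) {x y z : Fin n} (hx : c x = i) (hy : c y = i)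
    (hz : c z = i) (hxy : x ≠ y) (hxz : x ≠ z) (hyz : y ≠ z)
    (h : ({x, y, z} : Finset (Fin n)) ∉ T) :
    2 * (n : ℝ) ^ 3 ≤ 27 * (T.card : ℝ) + 640 * m * (n : ℝ) ^ 2 := by
  have hne : (Ee T c i m).Nonempty := by
    rcases De_or_Ee (T := T) (m := m) hx with h1 | h1
    · rcases De_or_Ee (T := T) (m := m) hy with h2 | h2
      · exact (one_De' hT hm hz hxy hxz hyz h h1 h2).elim
      · exact ⟨y, h2⟩
    · exact ⟨x, h1⟩
  have h0 : (0 : ℝ) ≤ m * (n : ℝ) ^ 2 := by positivity
  rcases Nat.lt_or_ge (De T c i m).card (Ee T c i m).card with h1 | h1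
  · have := caseB hT hij hm hmn hs h1
    linarith
  · have := caseA hT hij hm hmn hne h1
    linarith

theorem twoWay_le (hm : ∀ x, (tw T c x).card < m) : (twoWay T c).card ≤ n * m := by
  have hsub : twoWay T c ⊆ (univ.sigma fun x => tw T c x).image (fun p => (p.1, p.2)) := by
    rintro ⟨x, y⟩ hp
    unfold twoWay at hp
    rw [mem_filter] at hp
    obtain ⟨-, -, hc, h1, h2⟩ := hp
    rw [mem_image]
    refine ⟨⟨x, y⟩, mem_sigma.2 ⟨mem_univ _, ?_⟩, rfl⟩
    unfold tw
    rw [mem_filter]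
    exact ⟨mem_univ _, hc, h1, h2⟩
  have h1 := card_le_card hsub
  have h3 : ((univ.sigma fun x => tw T c x).image (fun p => (p.1, p.2))).card ≤
      (univ.sigma fun x => tw T c x).card := card_image_le
  have h5 : (univ.sigma fun x => tw T c x).card ≤ n * m := by
    rw [card_sigma]
    calc ∑ x : Fin n, (tw T c x).card ≤ ∑ _x : Fin n, m := sum_le_sum fun x _ => (hm x).le
      _ = n * m := by rw [sum_const, card_univ, Fintype.card_fin, smul_eq_mul]
  omega

/-- **the bound**, if every vertex is in fewer than `m` two-way pairs -/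
theorem core (hT : Cov T) (hm : ∀ x, (tw T c x).card < m)
    (hs : ∀ k, 3 * (n : ℝ) ≤ 25 * size c k) :
    2 * (n : ℝ) ^ 3 ≤ 27 * (T.card : ℝ) + 640 * m * (n : ℝ) ^ 2 := by
  have hT0 : (0 : ℝ) ≤ T.card := by positivity
  have hn0 : (0 : ℝ) ≤ n := by positivity
  rcases Nat.eq_zero_or_pos n with h0 | hn
  · subst h0
    simp only [Nat.cast_zero]
    linarith
  have hm1 : 1 ≤ m := by
    have := hm ⟨0, hn⟩
    omega
  rcases Nat.lt_or_ge n m with hmn | hmn
  · have h1 : (n : ℝ) ≤ m := by exact_mod_cast hmn.le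
    have h2 : (n : ℝ) * (n : ℝ) ^ 2 ≤ m * (n : ℝ) ^ 2 :=
      mul_le_mul_of_nonneg_right h1 (by positivity)
    nlinarith
  by_cases hex : ∃ (k : Fin 2) (x y z : Fin n), c x = k ∧ c y = k ∧ c z = k ∧ x ≠ y ∧ x ≠ z ∧
      y ≠ z ∧ ({x, y, z} : Finset (Fin n)) ∉ T
  · obtain ⟨k, x, y, z, hx, hy, hz, hxy, hxz, hyz, h⟩ := hex
    obtain ⟨l, hkl⟩ : ∃ l : Fin 2, k ≠ l := by
      rcases Fin.exists_fin_two.1 ⟨k, rfl⟩ with h | h
      · exact ⟨1, by rw [h]; decide⟩
      · exact ⟨0, by rw [h]; decide⟩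
    exact one_class hT hkl hm hmn (hs l) hx hy hz hxy hxz hyz h
  · push Not at hex
    have hh : holes T c = ∅ := by
      apply eq_empty_of_forall_notMem
      intro e he
      unfold holes at he
      rw [mem_filter] at he
      obtain ⟨-, h3, hno, k, -, hsub⟩ := he
      obtain ⟨x, y, z, hxy, hxz, hyz, rfl⟩ := card_eq_three.1 h3
      have hk : ∀ w ∈ ({x, y, z} : Finset (Fin n)), c w = k := by
        intro w hw
        have := hsub hw
        unfold part at this
        rw [mem_filter] at this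
        exact this.2
      exact hno (hex k x y z (hk x (by simp)) (hk y (by simp)) (hk z (by simp)) hxy hxz hyz)
    have h1 := main (T := T) hT c
    rw [hh, card_empty] at h1
    have h2 := twoWay_le hm
    have h3 : 10 * (n : ℝ) ^ 3 + 27 * ((symmDiff T (triples c (ori T c))).card : ℝ) ≤
        135 * (T.card : ℝ) + 162 * ((0 : ℕ) : ℝ) + 342 * n * ((twoWay T c).card : ℝ) +
          95 * ((2 : ℕ) + 1) * (n : ℝ) ^ 2 := by exact_mod_cast h1
    have h4 : ((twoWay T c).card : ℝ) ≤ n * m := by exact_mod_cast h2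
    have h5 : (0 : ℝ) ≤ ((symmDiff T (triples c (ori T c))).card : ℝ) := by positivity
    have h6 : 342 * n * ((twoWay T c).card : ℝ) ≤ 342 * n * (n * m) :=
      mul_le_mul_of_nonneg_left h4 (by positivity)
    have hm1' : (1 : ℝ) ≤ m := by exact_mod_cast hm1
    have h7 : (n : ℝ) ^ 2 ≤ m * (n : ℝ) ^ 2 := by
      have : 0 ≤ (n : ℝ) ^ 2 := by positivity
      nlinarith
    push_cast at h3
    nlinarith

end Pool.Agent.Zk14.TP
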